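import Pool.Agent.Y911.JL.Loc

/-! The area of the region `μ s ≤ t`, `s t (s + t) ≤ 1`. -/

set_option autoImplicit false

namespace Pool.Agent.Y911.JL

open Filter Topology MeasureTheory Pool.Agent.TH498.AR

/-- the square of the largest `s` with `s ^ 3 m (1 + m) ≤ 1` -/
noncomputable def s2 (m : ℝ) : ℝ := (m * (1 + m)) ^ (-(2 : ℝ) / 3)

/-- the area of the region `μ s ≤ t`, `s t (s + t) ≤ 1` -/
noncomputable def Ar (μ : ℝ) : ℝ := 1 / 2 * ∫ m in Set.Ioi μ, s2 m

theorem s2_nonneg {m : ℝ} (hm : 0 < m) : 0 ≤ s2 m := by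
  unfold s2
  positivity

theorem s2_meas : Measurable s2 := by
  unfold s2
  fun_prop

theorem gg_meas : Measurable gg := by
  unfold gg
  fun_prop

theorem Ph_meas (μ : ℝ) : Measurable (Ph μ) := by
  unfold Ph
  exact measurable_const.max (gg_meas.sub (measurable_const.mul measurable_id))

theorem s2_le {m : ℝ} (hm : 0 < m) : s2 m ≤ m ^ (-(4 : ℝ) / 3) := by
  unfold s2
  have h1 : m * m ≤ m * (1 + m) := mul_le_mul_of_nonneg_left (by linarith) hm.le
  calc (m * (1 + m)) ^ (-(2 : ℝ) / 3) ≤ (m * m) ^ (-(2 : ℝ) / 3) :=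
        Real.rpow_le_rpow_of_nonpos (by positivity) h1 (by norm_num)
    _ = m ^ (-(4 : ℝ) / 3) := by
        rw [Real.mul_rpow hm.le hm.le, ← Real.rpow_add hm]
        norm_num

theorem s2_int {μ : ℝ} (hμ : 1 ≤ μ) : IntegrableOn s2 (Set.Ioi μ) := by
  have h1 : IntegrableOn (fun m : ℝ => m ^ (-(4 : ℝ) / 3)) (Set.Ioi μ) :=
    integrableOn_Ioi_rpow_of_lt (by norm_num) (by linarith)
  refine Integrable.mono' h1 s2_meas.aestronglyMeasurable ?_
  refine (ae_restrict_iff' measurableSet_Ioi).2 (Filter.Eventually.of_forall fun m hm => ?_)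
  have hm0 : 0 < m := by
    have : μ < m := hm
    linarith
  rw [Real.norm_eq_abs, abs_of_nonneg (s2_nonneg hm0)]
  exact s2_le hm0

/-- the condition -/
def RS : Set (ℝ × ℝ) := {z | z.1 ^ 3 * (z.2 * (1 + z.2)) ≤ 1}

theorem RS_meas : MeasurableSet RS := by
  unfold RS
  exact measurableSet_le (by fun_prop) measurable_const

/-- the function of two variables -/
noncomputable def ff2 (s m : ℝ) : ENNReal := RS.indicator (fun z => ENNReal.ofReal z.1) (s, m)

theorem ff2_meas : Measurable (Function.uncurry ff2) := by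
  have : Function.uncurry ff2 = RS.indicator (fun z => ENNReal.ofReal z.1) := by
    funext z
    rfl
  rw [this]
  exact (ENNReal.measurable_ofReal.comp measurable_fst).indicator RS_meas

theorem inner_m {μ s : ℝ} (hμ : 1 ≤ μ) (hs : 0 < s) :
    ∫⁻ m in Set.Ioi μ, ff2 s m = ENNReal.ofReal (Ph μ s) := by
  have h1 : ∀ m ∈ Set.Ioi μ, ff2 s m = (Set.Iic (gg s / s)).indicator
      (fun _ => ENNReal.ofReal s) m := by
    intro m hm
    have hm0 : 0 < m := by
      have : μ < m := hm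
      linarith
    have hiff : (s, m) ∈ RS ↔ m ∈ Set.Iic (gg s / s) := by
      rw [Set.mem_Iic, le_div_iff₀ hs, gg_iff hs (by positivity)]
      unfold RS
      rw [Set.mem_ofPred_eq]
      have : s ^ 3 * (m * (1 + m)) = s * (m * s) * (s + m * s) := by ring
      simp only
      rw [this]
    unfold ff2
    by_cases h : (s, m) ∈ RS
    · rw [Set.indicator_of_mem h, Set.indicator_of_mem (hiff.1 h)]
    · rw [Set.indicator_of_notMem h, Set.indicator_of_notMem (fun h' => h (hiff.2 h'))]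
  rw [setLIntegral_congr_fun measurableSet_Ioi h1, setLIntegral_indicator measurableSet_Iic,
    setLIntegral_const]
  have h2 : Set.Iic (gg s / s) ∩ Set.Ioi μ = Set.Ioc μ (gg s / s) := by
    rw [Set.inter_comm]
    rfl
  rw [h2, Real.volume_Ioc, ← ENNReal.ofReal_mul hs.le]
  have h3 : s * (gg s / s - μ) = gg s - μ * s := by
    field_simp
  rw [h3]
  unfold Ph
  rcases le_total 0 (gg s - μ * s) with h | h
  · rw [max_eq_right h]
  · rw [max_eq_left h, ENNReal.ofReal_of_nonpos h, ENNReal.ofReal_zero]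

theorem inner_s {m η : ℝ} (hm : 1 < m) (hη : 0 < η) :
    ∫⁻ s in Set.Ioc η 1, ff2 s m = ENNReal.ofReal (max 0 ((s2 m - η ^ 2) / 2)) := by
  have hm0 : 0 < m := by linarith
  have hP : 0 < m * (1 + m) := by positivity
  obtain ⟨σ, hσ⟩ : ∃ σ : ℝ, σ = (m * (1 + m)) ^ (-(1 : ℝ) / 3) := ⟨_, rfl⟩
  have hσ0 : 0 < σ := by rw [hσ]; positivity
  have hσ2 : σ ^ 2 = s2 m := by
    rw [hσ, ← Real.rpow_natCast, ← Real.rpow_mul hP.le]
    unfold s2
    norm_num
  have hσ3 : σ ^ 3 * (m * (1 + m)) = 1 := by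
    rw [hσ, ← Real.rpow_natCast, ← Real.rpow_mul hP.le]
    norm_num
    rw [Real.rpow_neg_one, inv_mul_cancel₀ hP.ne']
  have hσ1 : σ ≤ 1 := by
    rw [hσ]
    refine Real.rpow_le_one_of_one_le_of_nonpos ?_ (by norm_num)
    nlinarith
  have h1 : ∀ s ∈ Set.Ioc η 1, ff2 s m = (Set.Iic σ).indicator
      (fun s => ENNReal.ofReal s) s := by
    intro s hs
    have hs0 : 0 < s := hη.trans hs.1
    have hiff : (s, m) ∈ RS ↔ s ∈ Set.Iic σ := by
      unfold RS
      rw [Set.mem_ofPred_eq, Set.mem_Iic]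
      simp only
      have e : (s ^ 3 * (m * (1 + m)) ≤ 1) ↔ (s ^ 3 * (m * (1 + m)) ≤ σ ^ 3 * (m * (1 + m))) := by
        rw [hσ3]
      rw [e, mul_le_mul_iff_left₀ hP]
      exact pow_le_pow_iff_left₀ hs0.le hσ0.le (by norm_num)
    unfold ff2
    by_cases h : (s, m) ∈ RS
    · rw [Set.indicator_of_mem h, Set.indicator_of_mem (hiff.1 h)]
    · rw [Set.indicator_of_notMem h, Set.indicator_of_notMem (fun h' => h (hiff.2 h'))]
  rw [setLIntegral_congr_fun measurableSet_Ioc h1, setLIntegral_indicator measurableSet_Iic]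
  have h2 : Set.Iic σ ∩ Set.Ioc η 1 = Set.Ioc η σ := by
    ext s
    rw [Set.mem_inter_iff, Set.mem_Iic, Set.mem_Ioc, Set.mem_Ioc]
    constructor
    · rintro ⟨a, b, c⟩
      exact ⟨b, a⟩
    · rintro ⟨a, b⟩
      exact ⟨b, a, b.trans hσ1⟩
  rw [h2]
  rcases le_total η σ with h | h
  · have h3 : ∫ s in Set.Ioc η σ, s = (σ ^ 2 - η ^ 2) / 2 := by
      rw [← intervalIntegral.integral_of_le h, integral_id]
    have h4 : IntegrableOn (fun s : ℝ => s) (Set.Ioc η σ) :=
      (continuous_id.integrableOn_Icc).mono_set Set.Ioc_subset_Icc_self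
    have h5 : 0 ≤ᵐ[volume.restrict (Set.Ioc η σ)] fun s : ℝ => s := by
      refine (ae_restrict_iff' measurableSet_Ioc).2 (Filter.Eventually.of_forall fun s hs => ?_)
      exact (hη.trans hs.1).le
    rw [← ofReal_integral_eq_lintegral_ofReal h4 h5, h3, ← hσ2, max_eq_right]
    have : η ^ 2 ≤ σ ^ 2 := pow_le_pow_left₀ hη.le h 2
    linarith
  · rw [Set.Ioc_eq_empty (not_lt.2 h), Measure.restrict_empty, lintegral_zero_measure, ← hσ2,
      max_eq_left, ENNReal.ofReal_zero]
    have : σ ^ 2 ≤ η ^ 2 := pow_le_pow_left₀ hσ0.le h 2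
    linarith

theorem mx_meas (η : ℝ) : Measurable fun m : ℝ => max (0 : ℝ) ((s2 m - η ^ 2) / 2) :=
  measurable_const.max ((s2_meas.sub_const _).div_const _)

/-- the truncated area as an integral over the slope -/
theorem swap {μ η : ℝ} (hμ : 1 ≤ μ) (hη : 0 < η) :
    ∫ s in Set.Ioc η 1, Ph μ s = ∫ m in Set.Ioi μ, max 0 ((s2 m - η ^ 2) / 2) := by
  rw [integral_eq_lintegral_of_nonneg_ae (Filter.Eventually.of_forall fun s => Ph_nonneg μ s)
    (Ph_meas μ).aestronglyMeasurable,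
    integral_eq_lintegral_of_nonneg_ae
      (Filter.Eventually.of_forall fun m => le_max_left (0 : ℝ) ((s2 m - η ^ 2) / 2))
    (mx_meas η).aestronglyMeasurable]
  congr 1
  have h1 : ∫⁻ s in Set.Ioc η 1, ENNReal.ofReal (Ph μ s) =
      ∫⁻ s in Set.Ioc η 1, ∫⁻ m in Set.Ioi μ, ff2 s m := by
    refine setLIntegral_congr_fun measurableSet_Ioc fun s hs => ?_
    exact (inner_m hμ (hη.trans hs.1)).symm
  have h2 : ∫⁻ m in Set.Ioi μ, ENNReal.ofReal (max 0 ((s2 m - η ^ 2) / 2)) =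
      ∫⁻ m in Set.Ioi μ, ∫⁻ s in Set.Ioc η 1, ff2 s m := by
    refine setLIntegral_congr_fun measurableSet_Ioi fun m hm => ?_
    exact (inner_s (lt_of_le_of_lt hμ hm) hη).symm
  rw [h1, h2]
  exact lintegral_lintegral_swap ff2_meas.aemeasurable

theorem JJ_eq {μ η : ℝ} (hμ : 1 ≤ μ) (hη : 0 < η) (hη1 : η ≤ 1) :
    JJ μ η = ∫ m in Set.Ioi μ, max 0 ((s2 m - η ^ 2) / 2) := by
  rw [← swap hμ hη]
  unfold JJ
  have hii : ∀ a b : ℝ, IntervalIntegrable (PF μ η) volume a b :=
    fun a b => (PF_anti hμ hη).intervalIntegrable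
  rw [← intervalIntegral.integral_add_adjacent_intervals (hii 0 η) (hii η 1)]
  have h1 : ∫ s in (0 : ℝ)..η, PF μ η s = Ph μ η * η := by
    rw [intervalIntegral.integral_congr (g := fun _ => Ph μ η)]
    · rw [intervalIntegral.integral_const, smul_eq_mul, sub_zero, mul_comm]
    · intro s hs
      rw [Set.uIcc_of_le hη.le] at hs
      exact PF_small hs.2
  have h2 : ∫ s in η..1, PF μ η s = ∫ s in Set.Ioc η 1, Ph μ s := by
    rw [intervalIntegral.integral_of_le hη1]
    refine setIntegral_congr_fun measurableSet_Ioc fun s hs => ?_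
    exact PF_eq hs.1.le
  rw [h1, h2]
  ring

/-- **The limit of the truncated areas.** -/
theorem JJ_tendsto {μ : ℝ} (hμ : 1 ≤ μ) : Tendsto (JJ μ) (𝓝[>] 0) (𝓝 (Ar μ)) := by
  have h1 : Tendsto (fun η : ℝ => ∫ m in Set.Ioi μ, max 0 ((s2 m - η ^ 2) / 2)) (𝓝[>] 0)
      (𝓝 (∫ m in Set.Ioi μ, s2 m / 2)) := by
    refine tendsto_integral_filter_of_dominated_convergence s2 ?_ ?_ (s2_int hμ) ?_
    · exact Filter.Eventually.of_forall fun η => (mx_meas η).aestronglyMeasurable
    · refine Filter.Eventually.of_forall fun η => ?_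
      refine (ae_restrict_iff' measurableSet_Ioi).2 (Filter.Eventually.of_forall fun m hm => ?_)
      have hm0 : 0 < m := by
        have : μ < m := hm
        linarith
      have h0 := s2_nonneg hm0
      rw [Real.norm_eq_abs, abs_of_nonneg (le_max_left _ _)]
      refine max_le h0 ?_
      have : 0 ≤ η ^ 2 := sq_nonneg η
      linarith
    · refine (ae_restrict_iff' measurableSet_Ioi).2 (Filter.Eventually.of_forall fun m hm => ?_)
      have hm0 : 0 < m := by
        have : μ < m := hm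
        linarith
      have h0 := s2_nonneg hm0
      have h2 : Tendsto (fun η : ℝ => max 0 ((s2 m - η ^ 2) / 2)) (𝓝 0)
          (𝓝 (max 0 ((s2 m - 0 ^ 2) / 2))) := by
        have : Continuous fun η : ℝ => max 0 ((s2 m - η ^ 2) / 2) := by fun_prop
        exact this.tendsto 0
      have e : max 0 ((s2 m - 0 ^ 2) / 2) = s2 m / 2 := by
        rw [zero_pow (by norm_num), sub_zero, max_eq_right (by positivity)]
      rw [e] at h2
      exact h2.mono_left nhdsWithin_le_nhds
  have e2 : Ar μ = ∫ m in Set.Ioi μ, s2 m / 2 := by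
    unfold Ar
    rw [← integral_const_mul]
    congr 1
    funext m
    ring
  rw [e2]
  refine h1.congr' ?_
  have h3 : ∀ᶠ η : ℝ in 𝓝[>] 0, η ∈ Set.Ioc (0 : ℝ) 1 := Ioc_mem_nhdsGT one_pos
  filter_upwards [h3] with η hη
  exact (JJ_eq hμ hη.1 hη.2).symm

end Pool.Agent.Y911.JL
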