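import Pool.Agent.Y911.JL.Dist
import Mathlib.Probability.Distributions.Beta

/-! The area in terms of the Gamma function. -/

set_option autoImplicit false

namespace Pool.Agent.Y911.JL

open MeasureTheory Set

/-- the integrand -/
noncomputable def bb (x : ℝ) : ℝ := x ^ (-(2 : ℝ) / 3) * (1 - x) ^ (-(2 : ℝ) / 3)

theorem bb_symm (x : ℝ) : bb (1 - x) = bb x := by
  unfold bb
  rw [sub_sub_cancel, mul_comm]

theorem beta_bb : ProbabilityTheory.beta (1 / 3) (1 / 3) = ∫ x in (0 : ℝ)..1, bb x := by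
  rw [ProbabilityTheory.beta_eq_betaIntegralReal _ _ (by norm_num) (by norm_num)]
  unfold Complex.betaIntegral
  have h1 : (∫ x in (0 : ℝ)..1, (x : ℂ) ^ (((1 / 3 : ℝ) : ℂ) - 1) *
      (1 - (x : ℂ)) ^ (((1 / 3 : ℝ) : ℂ) - 1)) = ((∫ x in (0 : ℝ)..1, bb x : ℝ) : ℂ) := by
    rw [← intervalIntegral.integral_ofReal]
    refine intervalIntegral.integral_congr fun x hx => ?_
    rw [uIcc_of_le zero_le_one] at hx
    have e : (((1 / 3 : ℝ) : ℂ) - 1) = ((-(2 : ℝ) / 3 : ℝ) : ℂ) := by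
      push_cast
      ring
    rw [e]
    unfold bb
    push_cast
    have h2 : ((x : ℂ)) ^ ((-(2 : ℂ) / 3)) = ((x ^ (-(2 : ℝ) / 3) : ℝ) : ℂ) := by
      rw [Complex.ofReal_cpow hx.1]
      push_cast
      rfl
    have h3 : (1 - (x : ℂ)) ^ ((-(2 : ℂ) / 3)) = (((1 - x) ^ (-(2 : ℝ) / 3) : ℝ) : ℂ) := by
      rw [Complex.ofReal_cpow (by linarith [hx.2])]
      push_cast
      rfl
    rw [h2, h3]
  rw [h1, Complex.ofReal_re]

theorem bb_int_left : IntervalIntegrable bb volume 0 (1 / 2) := by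
  have h1 : IntervalIntegrable (fun x : ℝ => x ^ (-(2 : ℝ) / 3)) volume 0 (1 / 2) :=
    intervalIntegral.intervalIntegrable_rpow' (by norm_num)
  refine IntervalIntegrable.mul_continuousOn h1 ?_
  rw [uIcc_of_le (by norm_num)]
  intro x hx
  refine ContinuousAt.continuousWithinAt ?_
  refine ContinuousAt.rpow_const (by fun_prop) (Or.inl ?_)
  have := hx.2
  intro h
  linarith

theorem bb_int_right : IntervalIntegrable bb volume (1 / 2) 1 := by
  have h := bb_int_left.comp_sub_left 1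
  have e : (fun x => bb (1 - x)) = bb := by
    funext x
    exact bb_symm x
  rw [e] at h
  norm_num at h
  exact h.symm

theorem beta_half : ProbabilityTheory.beta (1 / 3) (1 / 3) =
    2 * ∫ x in (0 : ℝ)..(1 / 2), bb x := by
  rw [beta_bb, ← intervalIntegral.integral_add_adjacent_intervals bb_int_left bb_int_right]
  have h : ∫ x in (0 : ℝ)..(1 / 2), bb x = ∫ x in (1 / 2 : ℝ)..1, bb x := by
    have h1 := intervalIntegral.integral_comp_sub_left (a := 1 / 2) (b := 1) bb 1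
    rw [show (1 : ℝ) - 1 = 0 by norm_num, show (1 : ℝ) - 1 / 2 = 1 / 2 by norm_num] at h1
    rw [← h1]
    exact intervalIntegral.integral_congr fun x _ => bb_symm x
  rw [h]
  ring

theorem image_eq : (fun x : ℝ => (1 - x) / x) '' Ioo 0 (1 / 2) = Ioi 1 := by
  ext m
  constructor
  · rintro ⟨x, ⟨h1, h2⟩, rfl⟩
    change 1 < (1 - x) / x
    rw [lt_div_iff₀ h1]
    linarith
  · intro hm
    have hm1 : 1 < m := hm
    have h0 : 0 < 1 + m := by linarith
    refine ⟨1 / (1 + m), ⟨by positivity, ?_⟩, ?_⟩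
    · exact one_div_lt_one_div_of_lt (by norm_num) (by linarith)
    · simp only
      field_simp
      ring

theorem s2_bb : ∫ m in Ioi (1 : ℝ), s2 m = ∫ x in (0 : ℝ)..(1 / 2), bb x := by
  rw [intervalIntegral.integral_of_le (by norm_num), integral_Ioc_eq_integral_Ioo, ← image_eq]
  have hd : ∀ x ∈ Ioo (0 : ℝ) (1 / 2),
      HasDerivWithinAt (fun x : ℝ => (1 - x) / x) (-1 / x ^ 2) (Ioo 0 (1 / 2)) x := by
    intro x hx
    have hx0 : x ≠ 0 := hx.1.ne'
    have h1 : HasDerivAt (fun x : ℝ => (1 - x) / x) (((-1) * x - (1 - x) * 1) / x ^ 2) x :=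
      ((hasDerivAt_id x).const_sub 1).div (hasDerivAt_id x) hx0
    have e : ((-1) * x - (1 - x) * 1) / x ^ 2 = -1 / x ^ 2 := by ring
    rw [e] at h1
    exact h1.hasDerivWithinAt
  have hinj : InjOn (fun x : ℝ => (1 - x) / x) (Ioo 0 (1 / 2)) := by
    intro x hx y hy h
    simp only at h
    have hx0 := hx.1
    have hy0 := hy.1
    rw [div_eq_div_iff hx0.ne' hy0.ne'] at h
    linarith
  rw [integral_image_eq_integral_abs_deriv_smul measurableSet_Ioo hd hinj]
  refine setIntegral_congr_fun measurableSet_Ioo fun x hx => ?_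
  have hx0 : 0 < x := hx.1
  have hx1 : 0 < 1 - x := by
    have := hx.2
    linarith
  simp only [smul_eq_mul]
  unfold s2 bb
  have e1 : (1 - x) / x * (1 + (1 - x) / x) = (1 - x) * x ^ (-(2 : ℝ)) := by
    rw [Real.rpow_neg hx0.le, show (2 : ℝ) = ((2 : ℕ) : ℝ) by norm_num, Real.rpow_natCast]
    field_simp
    ring
  have e2 : |-1 / x ^ 2| = x ^ (-(2 : ℝ)) := by
    rw [abs_div, abs_neg, abs_one, abs_of_pos (by positivity), Real.rpow_neg hx0.le,
      show (2 : ℝ) = ((2 : ℕ) : ℝ) by norm_num, Real.rpow_natCast, one_div]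
  rw [e1, e2, Real.mul_rpow hx1.le (by positivity), ← Real.rpow_mul hx0.le]
  have e3 : x ^ (-(2 : ℝ)) * ((1 - x) ^ (-(2 : ℝ) / 3) * x ^ (-(2 : ℝ) * (-(2 : ℝ) / 3))) =
      (x ^ (-(2 : ℝ)) * x ^ (-(2 : ℝ) * (-(2 : ℝ) / 3))) * (1 - x) ^ (-(2 : ℝ) / 3) := by ring
  rw [e3, ← Real.rpow_add hx0]
  norm_num

/-- **The area.** -/
theorem Ar_one : Ar 1 = Real.Gamma (1 / 3) ^ 2 / (4 * Real.Gamma (2 / 3)) := by
  have h1 := beta_half
  rw [← s2_bb] at h1
  unfold ProbabilityTheory.beta at h1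
  rw [show (1 : ℝ) / 3 + 1 / 3 = 2 / 3 by norm_num] at h1
  unfold Ar
  have h2 : ∫ m in Ioi (1 : ℝ), s2 m =
      Real.Gamma (1 / 3) * Real.Gamma (1 / 3) / Real.Gamma (2 / 3) / 2 := by
    rw [h1]
    ring
  rw [h2]
  have h3 : Real.Gamma (2 / 3) ≠ 0 := (Real.Gamma_pos_of_pos (by norm_num)).ne'
  field_simp
  norm_num

end Pool.Agent.Y911.JL
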