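import Mathlib

/-! Counting pairs of residues. -/

set_option autoImplicit false

namespace Pool.Agent.Y911.JL

open Finset

open Classical in
/-- the pairs modulo `m` with the property `S` -/
noncomputable def cs (m : ℕ) (S : ℕ × ℕ → Prop) : Finset (ℕ × ℕ) :=
  (range m ×ˢ range m).filter S

theorem mem_cs {m : ℕ} {S : ℕ × ℕ → Prop} {p : ℕ × ℕ} :
    p ∈ cs m S ↔ (p.1 < m ∧ p.2 < m) ∧ S p := by
  classical
  unfold cs
  rw [mem_filter, mem_product, mem_range, mem_range]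

/-- the number of pairs modulo `m` with the property `S` -/
noncomputable def cnt (m : ℕ) (S : ℕ × ℕ → Prop) : ℕ := (cs m S).card

/-- `S` depends on the residues modulo `m` only -/
def Per (m : ℕ) (S : ℕ × ℕ → Prop) : Prop :=
  ∀ p p' : ℕ × ℕ, p.1 % m = p'.1 % m → p.2 % m = p'.2 % m → (S p ↔ S p')

theorem Per.mono {m n : ℕ} {S : ℕ × ℕ → Prop} (h : Per m S) (hd : m ∣ n) : Per n S :=
  fun p p' h1 h2 => h p p' (Nat.ModEq.of_dvd hd h1) (Nat.ModEq.of_dvd hd h2)

theorem cnt_mul {m n : ℕ} (hm : 0 < m) (hn : 0 < n) (hc : Nat.Coprime m n)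
    {S S' : ℕ × ℕ → Prop} (h : Per m S) (h' : Per n S') :
    cnt (m * n) (fun p => S p ∧ S' p) = cnt m S * cnt n S' := by
  unfold cnt
  rw [← card_product]
  have hmn : 0 < m * n := Nat.mul_pos hm hn
  refine card_bij (fun p _ => ((p.1 % m, p.2 % m), (p.1 % n, p.2 % n))) ?_ ?_ ?_
  · intro p hp
    rw [mem_cs] at hp
    rw [mem_product, mem_cs, mem_cs]
    refine ⟨⟨⟨Nat.mod_lt _ hm, Nat.mod_lt _ hm⟩, ?_⟩, ⟨Nat.mod_lt _ hn, Nat.mod_lt _ hn⟩, ?_⟩
    · exact (h _ p (Nat.mod_mod _ _) (Nat.mod_mod _ _)).2 hp.2.1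
    · exact (h' _ p (Nat.mod_mod _ _) (Nat.mod_mod _ _)).2 hp.2.2
  · intro p hp q hq hpq
    rw [mem_cs] at hp hq
    simp only [Prod.mk.injEq] at hpq
    obtain ⟨⟨e1, e2⟩, e3, e4⟩ := hpq
    have k1 : p.1 ≡ q.1 [MOD m * n] := (Nat.modEq_and_modEq_iff_modEq_mul hc).1 ⟨e1, e3⟩
    have k2 : p.2 ≡ q.2 [MOD m * n] := (Nat.modEq_and_modEq_iff_modEq_mul hc).1 ⟨e2, e4⟩
    refine Prod.ext ?_ ?_
    · have := k1
      unfold Nat.ModEq at this
      rwa [Nat.mod_eq_of_lt hp.1.1, Nat.mod_eq_of_lt hq.1.1] at this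
    · have := k2
      unfold Nat.ModEq at this
      rwa [Nat.mod_eq_of_lt hp.1.2, Nat.mod_eq_of_lt hq.1.2] at this
  · rintro ⟨t, u⟩ htu
    rw [mem_product, mem_cs, mem_cs] at htu
    obtain ⟨⟨⟨a1, a2⟩, a3⟩, ⟨b1, b2⟩, b3⟩ := htu
    simp only at a1 a2 a3 b1 b2 b3
    obtain ⟨x, hx⟩ := Nat.chineseRemainder hc t.1 u.1
    obtain ⟨y, hy⟩ := Nat.chineseRemainder hc t.2 u.2
    have x1 : x % (m * n) % m = t.1 := by
      rw [Nat.mod_mul_right_mod, hx.1, Nat.mod_eq_of_lt a1]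
    have x2 : x % (m * n) % n = u.1 := by
      rw [Nat.mod_mul_left_mod, hx.2, Nat.mod_eq_of_lt b1]
    have y1 : y % (m * n) % m = t.2 := by
      rw [Nat.mod_mul_right_mod, hy.1, Nat.mod_eq_of_lt a2]
    have y2 : y % (m * n) % n = u.2 := by
      rw [Nat.mod_mul_left_mod, hy.2, Nat.mod_eq_of_lt b2]
    refine ⟨(x % (m * n), y % (m * n)), ?_, ?_⟩
    · rw [mem_cs]
      refine ⟨⟨Nat.mod_lt _ hmn, Nat.mod_lt _ hmn⟩, ?_, ?_⟩
      · refine (h _ t ?_ ?_).2 a3
        · simp only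
          rw [x1, Nat.mod_eq_of_lt a1]
        · simp only
          rw [y1, Nat.mod_eq_of_lt a2]
      · refine (h' _ u ?_ ?_).2 b3
        · simp only
          rw [x2, Nat.mod_eq_of_lt b1]
        · simp only
          rw [y2, Nat.mod_eq_of_lt b2]
    · simp only [x1, x2, y1, y2]

theorem cnt_ext {m k : ℕ} (hm : 0 < m) {S : ℕ × ℕ → Prop} (h : Per m S) :
    cnt (m * k) S = cnt m S * k ^ 2 := by
  classical
  unfold cnt
  have e : k ^ 2 = (range k ×ˢ range k).card := by rw [card_product, card_range, pow_two]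
  rw [e, ← card_product]
  refine card_bij (fun p _ => ((p.1 % m, p.2 % m), (p.1 / m, p.2 / m))) ?_ ?_ ?_
  · intro p hp
    rw [mem_cs] at hp
    rw [mem_product, mem_cs, mem_product, mem_range, mem_range]
    refine ⟨⟨⟨Nat.mod_lt _ hm, Nat.mod_lt _ hm⟩, ?_⟩, ?_, ?_⟩
    · exact (h _ p (Nat.mod_mod _ _) (Nat.mod_mod _ _)).2 hp.2
    · exact Nat.div_lt_of_lt_mul hp.1.1
    · exact Nat.div_lt_of_lt_mul hp.1.2
  · intro p hp q hq hpq
    simp only [Prod.mk.injEq] at hpq
    obtain ⟨⟨e1, e2⟩, e3, e4⟩ := hpq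
    refine Prod.ext ?_ ?_
    · rw [← Nat.mod_add_div p.1 m, ← Nat.mod_add_div q.1 m, e1, e3]
    · rw [← Nat.mod_add_div p.2 m, ← Nat.mod_add_div q.2 m, e2, e4]
  · rintro ⟨t, u⟩ htu
    rw [mem_product, mem_cs, mem_product, mem_range, mem_range] at htu
    obtain ⟨⟨⟨a1, a2⟩, a3⟩, b1, b2⟩ := htu
    simp only at a1 a2 a3 b1 b2
    have x1 : (t.1 + m * u.1) % m = t.1 := by
      rw [Nat.add_mul_mod_self_left, Nat.mod_eq_of_lt a1]
    have x2 : (t.1 + m * u.1) / m = u.1 := by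
      rw [Nat.add_mul_div_left _ _ hm, Nat.div_eq_of_lt a1, zero_add]
    have y1 : (t.2 + m * u.2) % m = t.2 := by
      rw [Nat.add_mul_mod_self_left, Nat.mod_eq_of_lt a2]
    have y2 : (t.2 + m * u.2) / m = u.2 := by
      rw [Nat.add_mul_div_left _ _ hm, Nat.div_eq_of_lt a2, zero_add]
    have lt : ∀ v z : ℕ, v < m → z < k → v + m * z < m * k := by
      intro v z hv hz
      calc v + m * z < m + m * z := by omega
        _ = m * (z + 1) := by ring
        _ ≤ m * k := Nat.mul_le_mul_left _ hz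
    refine ⟨(t.1 + m * u.1, t.2 + m * u.2), ?_, ?_⟩
    · rw [mem_cs]
      refine ⟨⟨lt _ _ a1 b1, lt _ _ a2 b2⟩, ?_⟩
      refine (h _ t ?_ ?_).2 a3
      · simp only
        rw [x1, Nat.mod_eq_of_lt a1]
      · simp only
        rw [y1, Nat.mod_eq_of_lt a2]
    · simp only [x1, x2, y1, y2]

/-- a finite family of coprime moduli -/
theorem cnt_prod {ι : Type} [DecidableEq ι] (s : Finset ι) (m : ι → ℕ) (S : ι → ℕ × ℕ → Prop)
    (hm : ∀ i ∈ s, 0 < m i) (hc : ∀ i ∈ s, ∀ j ∈ s, i ≠ j → Nat.Coprime (m i) (m j))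
    (hp : ∀ i ∈ s, Per (m i) (S i)) :
    cnt (∏ i ∈ s, m i) (fun p => ∀ i ∈ s, S i p) = ∏ i ∈ s, cnt (m i) (S i) := by
  classical
  induction s using Finset.induction_on with
  | empty =>
    simp only [prod_empty]
    have : cs 1 (fun p => ∀ i ∈ (∅ : Finset ι), S i p) = {(0, 0)} := by
      ext x
      rw [mem_cs, mem_singleton]
      constructor
      · rintro ⟨⟨h1, h2⟩, -⟩
        exact Prod.ext (by simp only; omega) (by simp only; omega)
      · rintro rfl
        exact ⟨⟨by simp, by simp⟩, fun i hi => absurd hi (notMem_empty i)⟩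
    unfold cnt
    rw [this, card_singleton]
  | insert a s ha ih =>
    rw [prod_insert ha, prod_insert ha]
    have ih' := ih (fun i hi => hm i (mem_insert_of_mem hi))
      (fun i hi j hj => hc i (mem_insert_of_mem hi) j (mem_insert_of_mem hj))
      (fun i hi => hp i (mem_insert_of_mem hi))
    rw [← ih', ← cnt_mul (hm a (mem_insert_self a s))
      (prod_pos fun i hi => hm i (mem_insert_of_mem hi))
      (Nat.Coprime.prod_right fun i hi => hc a (mem_insert_self a s) i (mem_insert_of_mem hi)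
        (fun h => ha (h ▸ hi))) (hp a (mem_insert_self a s))]
    · congr 1
      funext p
      simp only [mem_insert, forall_eq_or_imp]
    · intro p p' h1 h2
      refine forall_congr' fun i => forall_congr' fun hi => ?_
      exact (hp i (mem_insert_of_mem hi)).mono (dvd_prod_of_mem m hi) p p' h1 h2

/-- multiples in a range -/
theorem card_dvd_range {d k : ℕ} (hd : 0 < d) :
    ((range (d * k)).filter fun n => d ∣ n).card = k := by
  have : (range (d * k)).filter (fun n => d ∣ n) = (range k).image fun i => d * i := by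
    ext n
    rw [mem_filter, mem_range, mem_image]
    constructor
    · rintro ⟨h1, i, rfl⟩
      exact ⟨i, mem_range.2 (Nat.lt_of_mul_lt_mul_left h1), rfl⟩
    · rintro ⟨i, hi, rfl⟩
      exact ⟨Nat.mul_lt_mul_of_pos_left (mem_range.1 hi) hd, dvd_mul_right _ _⟩
  rw [this, card_image_of_injective, card_range]
  intro i j hij
  exact Nat.eq_of_mul_eq_mul_left hd hij

end Pool.Agent.Y911.JL
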