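import Pool.Agent.Y911.JL.Cls
import Pool.Agent.TH498.AR.Loc2

/-! The pairs with given repeated part and `b ≥ μ a`. -/

set_option autoImplicit false

namespace Pool.Agent.Y911.JL

open Finset Filter Topology Pool.Agent.TH498.AR

/-- the coprime pairs with repeated part `w`, `b ≥ μ a` and `a b (a + b) ≤ x ^ 3` -/
def NM (w : ℕ) (μ x : ℝ) : Set (ℕ × ℕ) :=
  {p | 0 < p.1 ∧ μ * p.1 ≤ p.2 ∧ Nat.Coprime p.1 p.2 ∧ psi3 ∅ p = w ∧
    (p.1 : ℝ) * p.2 * (p.1 + p.2) ≤ x ^ 3}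

lemma le_of_cone {μ : ℝ} (hμ : 1 ≤ μ) {p : ℕ × ℕ} (h : μ * p.1 ≤ (p.2 : ℝ)) : p.1 ≤ p.2 := by
  have h0 : (0 : ℝ) ≤ p.1 := Nat.cast_nonneg _
  have h1 : 1 * (p.1 : ℝ) ≤ μ * p.1 := mul_le_mul_of_nonneg_right hμ h0
  have : (p.1 : ℝ) ≤ p.2 := by linarith
  exact_mod_cast this

/-- the good residue classes -/
noncomputable def TS (w P0 : ℕ) : Finset (ℕ × ℕ) := by
  classical
  exact (range (Qm w P0) ×ˢ range (Qm w P0)).filter (fun t => Rloc w P0 t)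

/-- the density of the good residue classes -/
noncomputable def dn (w P0 : ℕ) : ℝ := ((TS w P0).card : ℝ) / (Qm w P0 : ℝ) ^ 2

/-- the area of the truncated region -/
noncomputable def JJ (μ η : ℝ) : ℝ := (∫ s in (0 : ℝ)..1, PF μ η s) - Ph μ η * η

/-- **The approximation.** -/
theorem NM_approx {w : ℕ} (hw : 0 < w) {μ : ℝ} (hμ : 1 ≤ μ) {η : ℝ} (hη0 : 0 < η) (hη1 : η ≤ 1)
    {P0 : ℕ} (hP0w : w + 1 ≤ P0) : ∃ C : ℝ, ∀ x : ℝ, 1 ≤ x → (NM w μ x).Finite ∧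
    |((NM w μ x).ncard : ℝ) - dn w P0 * JJ μ η * x ^ 2| ≤
      (2 * Real.sqrt η + 5 / (η * P0)) * x ^ 2 + C * x := by
  classical
  obtain ⟨Q, hQ⟩ : ∃ Q : ℕ, Q = Qm w P0 := ⟨_, rfl⟩
  have hQ0 : 0 < Q := by rw [hQ]; exact Qm_pos _ _
  obtain ⟨T, hT⟩ : ∃ T : Finset (ℕ × ℕ), T = TS w P0 := ⟨_, rfl⟩
  have hTm : ∀ t, t ∈ T ↔ (t.1 < Q ∧ t.2 < Q) ∧ Rloc w P0 t := by
    intro t
    rw [hT, TS, mem_filter, mem_product, mem_range, mem_range, hQ]
  have hLC := fun t : ℕ × ℕ => class_count hμ hη0 hη1 hQ0 t.1 t.2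
  refine ⟨T.card * (8 + 4 * Ph μ η), fun x hx => ?_⟩
  have hx0 : 0 < x := by linarith
  have hNfin : (NM w μ x).Finite :=
    (VV_finite x).subset fun p hp => ⟨hp.1, le_of_cone hμ hp.2.1, hp.2.2.2.2⟩
  refine ⟨hNfin, ?_⟩
  obtain ⟨NF, hNF⟩ : ∃ NF : Finset (ℕ × ℕ), NF = hNfin.toFinset := ⟨_, rfl⟩
  obtain ⟨UF, hUF⟩ : ∃ UF : Finset (ℕ × ℕ), UF = T.biUnion (fun t => (hLC t x hx).1.toFinset) :=
    ⟨_, rfl⟩
  have hNc : ((NM w μ x).ncard : ℝ) = (NF.card : ℝ) := by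
    rw [hNF, Set.ncard_eq_toFinset_card _ hNfin]
  have hUc : (UF.card : ℝ) = ∑ t ∈ T, ((Cls μ η Q t.1 t.2 x).ncard : ℝ) := by
    rw [hUF, card_biUnion]
    · push_cast
      refine sum_congr rfl fun t _ => ?_
      exact_mod_cast (Set.ncard_eq_toFinset_card _ (hLC t x hx).1).symm
    · intro t ht t' ht' hne
      rw [Function.onFun, disjoint_left]
      intro p hp hp'
      rw [Set.Finite.mem_toFinset] at hp hp'
      apply hne
      have u1 := ((hTm t).1 ht).1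
      have u2 := ((hTm t').1 ht').1
      have v1 := hp.2.2.2.2.1.symm.trans hp'.2.2.2.2.1
      have v2 := hp.2.2.2.2.2.symm.trans hp'.2.2.2.2.2
      rw [Nat.mod_eq_of_lt u1.1, Nat.mod_eq_of_lt u2.1] at v1
      rw [Nat.mod_eq_of_lt u1.2, Nat.mod_eq_of_lt u2.2] at v2
      exact Prod.ext v1 v2
  have hU : |(UF.card : ℝ) - dn w P0 * JJ μ η * x ^ 2| ≤ T.card * (8 + 4 * Ph μ η) * x := by
    have e : dn w P0 * JJ μ η * x ^ 2 = ∑ t ∈ T, (JJ μ η / Q ^ 2) * x ^ 2 := by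
      rw [sum_const, nsmul_eq_mul, dn, ← hT, ← hQ]
      ring
    have e2 : (T.card : ℝ) * (8 + 4 * Ph μ η) * x = ∑ t ∈ T, (8 + 4 * Ph μ η) * x := by
      rw [sum_const, nsmul_eq_mul]
      ring
    rw [hUc, e, e2, ← sum_sub_distrib]
    exact (abs_sum_le_sum_abs _ _).trans (sum_le_sum fun t _ => (hLC t x hx).2)
  -- the two differences
  have hd1 : ((NF \ UF).card : ℝ) ≤ 2 * Real.sqrt η * x ^ 2 := by
    refine cusp_count hη0 hx _ fun p hp => ?_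
    obtain ⟨hpN, hpU⟩ := Finset.mem_sdiff.1 hp
    rw [hNF, Set.Finite.mem_toFinset] at hpN
    obtain ⟨a1, a2, a3, a4, a5⟩ := hpN
    refine ⟨⟨a1, le_of_cone hμ a2, a5⟩, ?_⟩
    by_contra hcon
    push Not at hcon
    apply hpU
    rw [hUF, mem_biUnion]
    refine ⟨(p.1 % Q, p.2 % Q), ?_, ?_⟩
    · rw [hTm]
      refine ⟨⟨Nat.mod_lt _ hQ0, Nat.mod_lt _ hQ0⟩, ?_⟩
      have hb : 0 < p.2 := by
        have := le_of_cone hμ a2
        omega
      refine Rloc_congr hw (p := p) ?_ ?_ (Rloc_of hw a1 hb a3 a4)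
      · rw [← hQ, Nat.mod_mod]
      · rw [← hQ, Nat.mod_mod]
    · rw [Set.Finite.mem_toFinset]
      exact ⟨a1, a2, hcon, a5, (Nat.mod_mod _ _).symm, (Nat.mod_mod _ _).symm⟩
  have hd2 : ((UF \ NF).card : ℝ) ≤ 5 * x ^ 2 / (η * P0) := by
    refine bad_count hη0 hx (by omega) _ fun p hp => ?_
    obtain ⟨hpU, hpN⟩ := Finset.mem_sdiff.1 hp
    rw [hUF, mem_biUnion] at hpU
    obtain ⟨t, ht, hpt⟩ := hpU
    rw [Set.Finite.mem_toFinset] at hpt
    obtain ⟨a1, a2, a3, a4, a5, a6⟩ := hpt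
    have hb : 0 < p.2 := by
      have := le_of_cone hμ a2
      omega
    refine ⟨⟨a1, le_of_cone hμ a2, a4⟩, a3, ?_⟩
    by_contra hcon
    push Not at hcon
    apply hpN
    rw [hNF, Set.Finite.mem_toFinset]
    have hR : Rloc w P0 p := by
      refine Rloc_congr hw (p := t) ?_ ?_ ((hTm t).1 ht).2
      · rw [← hQ]; exact a5.symm
      · rw [← hQ]; exact a6.symm
    obtain ⟨b1, b2⟩ := of_Rloc hw (by omega) a1 hb hR (by
      intro q hq hqP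
      obtain ⟨c1, c2⟩ := hcon q hq hqP
      exact ⟨fun h => c1 h.1 h.2, c2⟩)
    exact ⟨a1, a2, b1, b2, a4⟩
  have hd3 : |(NF.card : ℝ) - UF.card| ≤ (NF \ UF).card + (UF \ NF).card := by
    have e1 : (NF.card : ℝ) ≤ UF.card + (NF \ UF).card := by
      have : NF.card ≤ UF.card + (NF \ UF).card := by
        have := card_le_card_sdiff_add_card (s := NF) (t := UF)
        omega
      exact_mod_cast this
    have e2 : (UF.card : ℝ) ≤ NF.card + (UF \ NF).card := by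
      have : UF.card ≤ NF.card + (UF \ NF).card := by
        have := card_le_card_sdiff_add_card (s := UF) (t := NF)
        omega
      exact_mod_cast this
    have n1 : (0 : ℝ) ≤ ((NF \ UF).card : ℝ) := Nat.cast_nonneg _
    have n2 : (0 : ℝ) ≤ ((UF \ NF).card : ℝ) := Nat.cast_nonneg _
    rw [abs_le]
    constructor <;> linarith
  rw [hNc]
  have e : (NF.card : ℝ) - dn w P0 * JJ μ η * x ^ 2 =
      (NF.card - UF.card) + (UF.card - dn w P0 * JJ μ η * x ^ 2) := by ring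
  rw [e]
  refine (abs_add_le _ _).trans ?_
  have h5 : 5 * x ^ 2 / (η * P0) = 5 / (η * P0) * x ^ 2 := by ring
  linarith

end Pool.Agent.Y911.JL
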