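import Pool.Agent.Y911.JL.Cnt
import Pool.Agent.Y911.JL.Loc

/-! The density of the residue classes. -/

set_option autoImplicit false

namespace Pool.Agent.Y911.JL

open Finset Pool.Agent.TH498.AR

/-- the local condition -/
def Rq (w q : ℕ) (p : ℕ × ℕ) : Prop :=
  ¬ (q ∣ p.1 ∧ q ∣ p.2) ∧ (q ∣ w → q ^ (w.factorization q + 1) ∣ nn p) ∧
    ¬ q ^ (w.factorization q + 2) ∣ nn p

/-- the auxiliary condition -/
def Ej (q j : ℕ) (p : ℕ × ℕ) : Prop := ¬ (q ∣ p.1 ∧ q ∣ p.2) ∧ q ^ j ∣ nn p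

theorem dvd_congr {d m x y : ℕ} (hd : d ∣ m) (hxy : x % m = y % m) : d ∣ x ↔ d ∣ y := by
  have : x ≡ y [MOD d] := Nat.ModEq.of_dvd hd hxy
  exact ⟨fun h => (Nat.modEq_zero_iff_dvd.1 (this.symm.trans (Nat.modEq_zero_iff_dvd.2 h))),
    fun h => (Nat.modEq_zero_iff_dvd.1 (this.trans (Nat.modEq_zero_iff_dvd.2 h)))⟩

theorem nn_congr {m : ℕ} {p p' : ℕ × ℕ} (h1 : p.1 % m = p'.1 % m) (h2 : p.2 % m = p'.2 % m) :
    nn p % m = nn p' % m := by
  unfold nn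
  have e1 : p.1 ≡ p'.1 [MOD m] := h1
  have e2 : p.2 ≡ p'.2 [MOD m] := h2
  exact (e1.mul e2).mul (e1.add e2)

theorem Rq_per {w q K : ℕ} (hK : w.factorization q + 2 ≤ K) : Per (q ^ K) (Rq w q) := by
  intro p p' h1 h2
  have hn := nn_congr h1 h2
  have d1 : q ∣ q ^ K := dvd_pow_self q (by omega)
  have d2 : q ^ (w.factorization q + 1) ∣ q ^ K := pow_dvd_pow q (by omega)
  have d3 : q ^ (w.factorization q + 2) ∣ q ^ K := pow_dvd_pow q (by omega)
  unfold Rq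
  rw [dvd_congr d1 h1, dvd_congr d1 h2, dvd_congr d2 hn, dvd_congr d3 hn]

theorem card_U {q K : ℕ} (hq : 0 < q) (hK : 1 ≤ K) :
    ((range (q ^ K)).filter fun n => ¬ q ∣ n).card = q ^ K - q ^ (K - 1) := by
  have h1 := card_filter_add_card_filter_not (s := range (q ^ K)) (fun n => q ∣ n)
  have h2 : ((range (q ^ K)).filter fun n => q ∣ n).card = q ^ (K - 1) := by
    have e : q ^ K = q * q ^ (K - 1) := by
      rw [← pow_succ']
      congr 1
      omega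
    rw [e]
    exact card_dvd_range hq
  rw [card_range] at h1
  omega

theorem card_V {q K j : ℕ} (hq : 0 < q) (hj : j ≤ K) :
    ((range (q ^ K)).filter fun n => q ^ j ∣ n).card = q ^ (K - j) := by
  have e : q ^ K = q ^ j * q ^ (K - j) := by
    rw [← pow_add]
    congr 1
    omega
  rw [e]
  exact card_dvd_range (by positivity)

theorem Ej_cases {q j : ℕ} (hq : q.Prime) (hj : 1 ≤ j) {p : ℕ × ℕ} :
    Ej q j p ↔ (q ^ j ∣ p.1 ∧ ¬ q ∣ p.2) ∨ (¬ q ∣ p.1 ∧ q ^ j ∣ p.2) ∨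
      (¬ q ∣ p.1 ∧ q ^ j ∣ p.1 + p.2) := by
  have hqj : q ∣ q ^ j := dvd_pow_self q (by omega)
  constructor
  · rintro ⟨h1, h2⟩
    by_cases a1 : q ∣ p.1
    · have a2 : ¬ q ∣ p.2 := fun h => h1 ⟨a1, h⟩
      have a3 : ¬ q ∣ p.1 + p.2 := fun h => a2 ((Nat.dvd_add_right a1).1 h)
      have c2 : Nat.Coprime (q ^ j) p.2 := Nat.Coprime.pow_left j ((hq.coprime_iff_not_dvd).2 a2)
      have c3 : Nat.Coprime (q ^ j) (p.1 + p.2) :=
        Nat.Coprime.pow_left j ((hq.coprime_iff_not_dvd).2 a3)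
      unfold nn at h2
      exact Or.inl ⟨c2.dvd_of_dvd_mul_right (c3.dvd_of_dvd_mul_right h2), a2⟩
    · have c1 : Nat.Coprime (q ^ j) p.1 := Nat.Coprime.pow_left j ((hq.coprime_iff_not_dvd).2 a1)
      by_cases a2 : q ∣ p.2
      · have a3 : ¬ q ∣ p.1 + p.2 := fun h => a1 ((Nat.dvd_add_left a2).1 h)
        have c3 : Nat.Coprime (q ^ j) (p.1 + p.2) :=
          Nat.Coprime.pow_left j ((hq.coprime_iff_not_dvd).2 a3)
        unfold nn at h2
        exact Or.inr (Or.inl ⟨a1, c1.dvd_of_dvd_mul_left (c3.dvd_of_dvd_mul_right h2)⟩)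
      · have c2 : Nat.Coprime (q ^ j) p.2 := Nat.Coprime.pow_left j ((hq.coprime_iff_not_dvd).2 a2)
        unfold nn at h2
        exact Or.inr (Or.inr ⟨a1, (c1.mul_right c2).dvd_of_dvd_mul_left h2⟩)
  · rintro (⟨h1, h2⟩ | ⟨h1, h2⟩ | ⟨h1, h2⟩)
    · exact ⟨fun h => h2 h.2, (h1.mul_right _).mul_right _⟩
    · exact ⟨fun h => h1 h.1, (h2.mul_left _).mul_right _⟩
    · exact ⟨fun h => h1 h.1, h2.mul_left _⟩

theorem cnt_Ej {q j K : ℕ} (hq : q.Prime) (hj : 1 ≤ j) (hjK : j ≤ K) :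
    cnt (q ^ K) (Ej q j) = 3 * (q ^ (K - j) * (q ^ K - q ^ (K - 1))) := by
  classical
  have hqj : q ∣ q ^ j := dvd_pow_self q (by omega)
  have hm : 0 < q ^ K := pow_pos hq.pos K
  obtain ⟨U, hU⟩ : ∃ U, U = (range (q ^ K)).filter fun n => ¬ q ∣ n := ⟨_, rfl⟩
  obtain ⟨V, hV⟩ : ∃ V, V = (range (q ^ K)).filter fun n => q ^ j ∣ n := ⟨_, rfl⟩
  have hUc : U.card = q ^ K - q ^ (K - 1) := by rw [hU]; exact card_U hq.pos (by omega)
  have hVc : V.card = q ^ (K - j) := by rw [hV]; exact card_V hq.pos hjK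
  have mU : ∀ n, n ∈ U ↔ n < q ^ K ∧ ¬ q ∣ n := fun n => by rw [hU, mem_filter, mem_range]
  have mV : ∀ n, n ∈ V ↔ n < q ^ K ∧ q ^ j ∣ n := fun n => by rw [hV, mem_filter, mem_range]
  obtain ⟨C, hC⟩ : ∃ C, C = (U ×ˢ range (q ^ K)).filter fun p : ℕ × ℕ => q ^ j ∣ p.1 + p.2 :=
    ⟨_, rfl⟩
  have mC : ∀ p : ℕ × ℕ, p ∈ C ↔ (p.1 < q ^ K ∧ ¬ q ∣ p.1) ∧ p.2 < q ^ K ∧ q ^ j ∣ p.1 + p.2 :=
    fun p => by rw [hC, mem_filter, mem_product, mU, mem_range, and_assoc]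
  have hCc : C.card = (U ×ˢ V).card := by
    refine card_bij (fun p _ => (p.1, (p.1 + p.2) % q ^ K)) ?_ ?_ ?_
    · intro p hp
      rw [mC] at hp
      rw [mem_product, mU, mV]
      refine ⟨hp.1, Nat.mod_lt _ hm, ?_⟩
      exact (dvd_congr (pow_dvd_pow q hjK) (Nat.mod_mod _ _)).2 hp.2.2
    · intro p hp p' hp' h
      rw [mC] at hp hp'
      simp only [Prod.mk.injEq] at h
      obtain ⟨h1, h2⟩ := h
      refine Prod.ext h1 ?_
      have h3 : p.1 + p.2 ≡ p.1 + p'.2 [MOD q ^ K] := by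
        have : (p.1 + p.2) % q ^ K = (p.1 + p'.2) % q ^ K := by
          rw [h2, h1]
        exact this
      have h4 : p.2 ≡ p'.2 [MOD q ^ K] := Nat.ModEq.add_left_cancel' p.1 h3
      unfold Nat.ModEq at h4
      rwa [Nat.mod_eq_of_lt hp.2.1, Nat.mod_eq_of_lt hp'.2.1] at h4
    · rintro ⟨a, v⟩ hp
      rw [mem_product, mU, mV] at hp
      simp only at hp
      obtain ⟨⟨h1, h2⟩, h3, h4⟩ := hp
      have h5 : (a + (v + (q ^ K - a)) % q ^ K) % q ^ K = v := by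
        rw [Nat.add_mod_mod]
        have : a + (v + (q ^ K - a)) = v + q ^ K := by omega
        rw [this, Nat.add_mod_right, Nat.mod_eq_of_lt h3]
      refine ⟨(a, (v + (q ^ K - a)) % q ^ K), ?_, ?_⟩
      · rw [mC]
        refine ⟨⟨h1, h2⟩, Nat.mod_lt _ hm, ?_⟩
        refine (dvd_congr (pow_dvd_pow q hjK) ?_).2 h4
        simp only
        rw [h5, Nat.mod_eq_of_lt h3]
      · simp only [h5]
  have hset : cs (q ^ K) (Ej q j) = (V ×ˢ U) ∪ ((U ×ˢ V) ∪ C) := by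
    ext p
    rw [mem_cs, Ej_cases hq hj, mem_union, mem_union, mem_product, mem_product, mU, mV, mU, mV, mC]
    tauto
  have d1 : Disjoint (V ×ˢ U) ((U ×ˢ V) ∪ C) := by
    rw [disjoint_left]
    intro p hp hp'
    rw [mem_product, mU, mV] at hp
    rw [mem_union, mem_product, mU, mV, mC] at hp'
    rcases hp' with h | h
    · exact h.1.2 (hqj.trans hp.1.2)
    · exact h.1.2 (hqj.trans hp.1.2)
  have d2 : Disjoint (U ×ˢ V) C := by
    rw [disjoint_left]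
    intro p hp hp'
    rw [mem_product, mU, mV] at hp
    rw [mC] at hp'
    have h1 : q ∣ p.2 := hqj.trans hp.2.2
    have h2 : q ∣ p.1 + p.2 := hqj.trans hp'.2.2
    exact hp.1.2 ((Nat.dvd_add_left h1).1 h2)
  unfold cnt
  rw [hset, card_union_of_disjoint d1, card_union_of_disjoint d2, hCc, card_product, card_product,
    hUc, hVc]
  ring

theorem cnt_F {q K : ℕ} (hq : q.Prime) (hK : 1 ≤ K) :
    cnt (q ^ K) (fun p => ¬ (q ∣ p.1 ∧ q ∣ p.2)) + q ^ (K - 1) * q ^ (K - 1) = q ^ K * q ^ K := by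
  classical
  obtain ⟨V, hV⟩ : ∃ V, V = (range (q ^ K)).filter fun n => q ∣ n := ⟨_, rfl⟩
  have hVc : V.card = q ^ (K - 1) := by
    have := card_V (j := 1) hq.pos hK
    rw [pow_one] at this
    rw [hV]
    exact this
  have mV : ∀ n, n ∈ V ↔ n < q ^ K ∧ q ∣ n := fun n => by rw [hV, mem_filter, mem_range]
  have h1 : range (q ^ K) ×ˢ range (q ^ K) =
      cs (q ^ K) (fun p => ¬ (q ∣ p.1 ∧ q ∣ p.2)) ∪ (V ×ˢ V) := by
    ext p
    rw [mem_product, mem_union, mem_product, mem_cs, mV, mV, mem_range, mem_range]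
    tauto
  have d : Disjoint (cs (q ^ K) (fun p => ¬ (q ∣ p.1 ∧ q ∣ p.2))) (V ×ˢ V) := by
    rw [disjoint_left]
    intro p hp hp'
    rw [mem_cs] at hp
    rw [mem_product, mV, mV] at hp'
    exact hp.2 ⟨hp'.1.2, hp'.2.2⟩
  have h2 := congrArg Finset.card h1
  rw [card_union_of_disjoint d, card_product, card_product, card_range, hVc] at h2
  unfold cnt
  omega

/-- the factor of the constant -/
noncomputable def ee (q : ℕ) : ℝ := 1 - 4 / (q : ℝ) ^ 2 + 3 / (q : ℝ) ^ 3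

/-- the weight of a prime of the repeated part -/
noncomputable def hh (q : ℕ) : ℝ := 3 * ((q : ℝ) - 1) / ((q : ℝ) ^ 2 + q - 3)

theorem ee_hh {q : ℕ} (hq : 2 ≤ q) : ee q * hh q = 3 * ((q : ℝ) - 1) ^ 2 / (q : ℝ) ^ 3 := by
  have hq2 : (2 : ℝ) ≤ q := by exact_mod_cast hq
  have hq0 : (q : ℝ) ≠ 0 := by positivity
  have hden : (q : ℝ) ^ 2 + q - 3 ≠ 0 := by nlinarith
  have h1 : ee q = (((q : ℝ) - 1) * ((q : ℝ) ^ 2 + q - 3)) / (q : ℝ) ^ 3 := by
    unfold ee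
    field_simp
    ring
  rw [h1]
  unfold hh
  rw [div_mul_div_comm, mul_comm ((q : ℝ) ^ 3), ← div_div]
  congr 1
  rw [div_eq_iff hden]
  ring

theorem cnt_Rq {w q K : ℕ} (hq : q.Prime) (hK : w.factorization q + 2 ≤ K) :
    (cnt (q ^ K) (Rq w q) : ℝ) / ((q : ℝ) ^ K) ^ 2 =
      if q ∣ w then ee q * hh q / (q : ℝ) ^ (w.factorization q) else ee q := by
  obtain ⟨k, hk⟩ : ∃ k, k = w.factorization q := ⟨_, rfl⟩
  have hq2 : (2 : ℝ) ≤ q := by exact_mod_cast hq.two_le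
  have hq0 : (0 : ℝ) < q := by linarith
  have hden : (0 : ℝ) < (q : ℝ) ^ 2 + q - 3 := by nlinarith
  have hle : q ^ (K - 1) ≤ q ^ K := Nat.pow_le_pow_right hq.pos (by omega)
  have hKr : (q : ℝ) ^ K = q * (q : ℝ) ^ (K - 1) := by
    rw [← pow_succ']
    congr 1
    omega
  have hP : (0 : ℝ) < (q : ℝ) ^ (K - 1) := by positivity
  split_ifs with hqw
  · -- the primes dividing `w`
    have hsub : cs (q ^ K) (Ej q (k + 2)) ⊆ cs (q ^ K) (Ej q (k + 1)) := by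
      intro p hp
      rw [mem_cs] at hp ⊢
      exact ⟨hp.1, hp.2.1, (pow_dvd_pow q (by omega)).trans hp.2.2⟩
    have heq : cs (q ^ K) (Rq w q) = cs (q ^ K) (Ej q (k + 1)) \ cs (q ^ K) (Ej q (k + 2)) := by
      ext p
      rw [Finset.mem_sdiff, mem_cs, mem_cs, mem_cs]
      unfold Rq Ej
      rw [← hk]
      tauto
    have hc : (cnt (q ^ K) (Rq w q) : ℝ) = cnt (q ^ K) (Ej q (k + 1)) - cnt (q ^ K) (Ej q (k + 2)) := by
      unfold cnt
      rw [heq, card_sdiff_of_subset hsub, Nat.cast_sub (card_le_card hsub)]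
    rw [hc, cnt_Ej hq (by omega) (by omega), cnt_Ej hq (by omega) (by omega)]
    push_cast [Nat.cast_sub hle]
    have e1 : (q : ℝ) ^ (K - (k + 1)) = (q : ℝ) ^ K / (q : ℝ) ^ (k + 1) := by
      rw [eq_div_iff (by positivity), ← pow_add]
      congr 1
      omega
    have e2 : (q : ℝ) ^ (K - (k + 2)) = (q : ℝ) ^ K / (q : ℝ) ^ (k + 2) := by
      rw [eq_div_iff (by positivity), ← pow_add]
      congr 1
      omega
    rw [e1, e2, ← hk, ee_hh hq.two_le, hKr]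
    field_simp
    ring
  · have hk0 : w.factorization q = 0 := Nat.factorization_eq_zero_of_not_dvd hqw
    have hK2 : 2 ≤ K := by omega
    have hsub : cs (q ^ K) (Ej q 2) ⊆ cs (q ^ K) (fun p => ¬ (q ∣ p.1 ∧ q ∣ p.2)) := by
      intro p hp
      rw [mem_cs] at hp ⊢
      exact ⟨hp.1, hp.2.1⟩
    have heq : cs (q ^ K) (Rq w q) =
        cs (q ^ K) (fun p => ¬ (q ∣ p.1 ∧ q ∣ p.2)) \ cs (q ^ K) (Ej q 2) := by
      ext p
      rw [Finset.mem_sdiff, mem_cs, mem_cs, mem_cs]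
      unfold Rq Ej
      rw [hk0]
      tauto
    have hF := cnt_F hq (show 1 ≤ K by omega)
    have hF' : (cnt (q ^ K) (fun p => ¬ (q ∣ p.1 ∧ q ∣ p.2)) : ℝ) =
        (q : ℝ) ^ K * (q : ℝ) ^ K - (q : ℝ) ^ (K - 1) * (q : ℝ) ^ (K - 1) := by
      have : (cnt (q ^ K) (fun p => ¬ (q ∣ p.1 ∧ q ∣ p.2)) : ℝ) +
          (q : ℝ) ^ (K - 1) * (q : ℝ) ^ (K - 1) = (q : ℝ) ^ K * (q : ℝ) ^ K := by exact_mod_cast hF
      linarith
    have hc : (cnt (q ^ K) (Rq w q) : ℝ) =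
        cnt (q ^ K) (fun p => ¬ (q ∣ p.1 ∧ q ∣ p.2)) - cnt (q ^ K) (Ej q 2) := by
      unfold cnt
      rw [heq, card_sdiff_of_subset hsub, Nat.cast_sub (card_le_card hsub)]
    rw [hc, hF', cnt_Ej hq (by omega) hK2]
    push_cast [Nat.cast_sub hle]
    have e1 : (q : ℝ) ^ (K - 2) = (q : ℝ) ^ K / (q : ℝ) ^ 2 := by
      rw [eq_div_iff (by positivity), ← pow_add]
      congr 1
      omega
    rw [e1]
    unfold ee
    rw [hKr]
    field_simp
    ring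

/-- the primes up to `P` -/
def PP (P : ℕ) : Finset ℕ := (range (P + 1)).filter Nat.Prime

theorem mem_PP {P q : ℕ} : q ∈ PP P ↔ q ≤ P ∧ q.Prime := by
  unfold PP
  rw [mem_filter, mem_range, Nat.lt_succ_iff]

/-- **The density of the good residue classes.** -/
theorem dn_eq {w P0 : ℕ} (hw : 0 < w) (hP : w ≤ P0) :
    dn w P0 = (∏ q ∈ PP P0, ee q) * ((∏ q ∈ w.primeFactors, hh q) / w) := by
  classical
  have hTS : (TS w P0).card = cnt (Qm w P0) (Rloc w P0) := by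
    unfold cnt
    congr 1
  have hfac : ∀ q, w.factorization q + 2 ≤ w + 2 := fun q => by
    have := Nat.factorization_lt q hw.ne'
    omega
  obtain ⟨M, hM⟩ : ∃ M, M = ∏ q ∈ PP P0, q ^ (w + 2) := ⟨_, rfl⟩
  have hpr : ∀ q ∈ PP P0, q.Prime := fun q hq => (mem_PP.1 hq).2
  have hM0 : 0 < M := by
    rw [hM]
    exact prod_pos fun q hq => pow_pos (hpr q hq).pos _
  have hper : ∀ q ∈ PP P0, Per (q ^ (w + 2)) (Rq w q) := fun q _ => Rq_per (hfac q)
  have hcntM : cnt M (fun p => ∀ q ∈ PP P0, Rq w q p) =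
      ∏ q ∈ PP P0, cnt (q ^ (w + 2)) (Rq w q) := by
    rw [hM]
    refine cnt_prod (PP P0) (fun q => q ^ (w + 2)) (fun q => Rq w q)
      (fun q hq => pow_pos (hpr q hq).pos _) (fun q hq q' hq' hne => ?_) hper
    exact Nat.Coprime.pow _ _ ((Nat.coprime_primes (hpr q hq) (hpr q' hq')).2 hne)
  have hloc : Rloc w P0 = fun p => ∀ q ∈ PP P0, Rq w q p := by
    funext p
    refine propext ⟨fun h q hq => ?_, fun h q hq hqP => ?_⟩
    · obtain ⟨h1, h2⟩ := mem_PP.1 hq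
      exact h q h2 h1
    · exact h q (mem_PP.2 ⟨hqP, hq⟩)
  have hdvd : M ∣ Qm w P0 := by
    rw [hM, prod_pow]
    unfold Qm
    refine pow_dvd_pow_of_dvd ?_ _
    refine Finset.prod_primes_dvd _ (fun q hq => (hpr q hq).prime) fun q hq => ?_
    obtain ⟨h1, h2⟩ := mem_PP.1 hq
    exact Nat.dvd_factorial h2.pos h1
  obtain ⟨k, hk⟩ := hdvd
  have hQ := Qm_pos w P0
  have hk0 : 0 < k := by
    rcases Nat.eq_zero_or_pos k with h | h
    · rw [hk, h, mul_zero] at hQ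
      omega
    · exact h
  have hperM : Per M (fun p => ∀ q ∈ PP P0, Rq w q p) := by
    intro p p' h1 h2
    refine forall_congr' fun q => forall_congr' fun hq => ?_
    refine (hper q hq).mono ?_ p p' h1 h2
    rw [hM]
    exact dvd_prod_of_mem (fun q => q ^ (w + 2)) hq
  have hM0' : (M : ℝ) ≠ 0 := by exact_mod_cast hM0.ne'
  have hk0' : (k : ℝ) ≠ 0 := by exact_mod_cast hk0.ne'
  have h1 : dn w P0 = (cnt M (fun p => ∀ q ∈ PP P0, Rq w q p) : ℝ) / (M : ℝ) ^ 2 := by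
    unfold dn
    rw [hTS, hloc, hk, cnt_ext hM0 hperM]
    push_cast
    field_simp
  rw [h1, hcntM]
  have hMr : (M : ℝ) ^ 2 = ∏ q ∈ PP P0, ((q : ℝ) ^ (w + 2)) ^ 2 := by
    rw [hM, Nat.cast_prod, ← Finset.prod_pow]
    refine prod_congr rfl fun q _ => ?_
    push_cast
    rfl
  rw [hMr]
  push_cast
  rw [← prod_div_distrib]
  have h2 : ∀ q ∈ PP P0, (cnt (q ^ (w + 2)) (Rq w q) : ℝ) / ((q : ℝ) ^ (w + 2)) ^ 2 =
      ee q * (if q ∣ w then hh q / (q : ℝ) ^ (w.factorization q) else 1) := by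
    intro q hq
    rw [cnt_Rq (hpr q hq) (hfac q)]
    split_ifs
    · ring
    · ring
  rw [prod_congr rfl h2, prod_mul_distrib, ← prod_filter]
  congr 1
  have h3 : (PP P0).filter (fun q => q ∣ w) = w.primeFactors := by
    ext q
    rw [mem_filter, mem_PP, Nat.mem_primeFactors]
    constructor
    · rintro ⟨⟨-, a2⟩, a3⟩
      exact ⟨a2, a3, hw.ne'⟩
    · rintro ⟨a1, a2, -⟩
      exact ⟨⟨(Nat.le_of_dvd hw a2).trans hP, a1⟩, a2⟩
  rw [h3, prod_div_distrib]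
  congr 1
  have h4 := Nat.prod_factorization_pow_eq_self hw.ne'
  rw [Finsupp.prod, Nat.support_factorization] at h4
  conv_rhs => rw [← h4]
  push_cast
  rfl

end Pool.Agent.Y911.JL
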