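import Pool.Agent.Y911.JL.Joint

/-! The law of `c / rad (abc) ^ (1/3)`. -/

set_option autoImplicit false

namespace Pool.Agent.Y911.JL

open Finset Filter Topology Pool.Agent.TH498.AR MeasureTheory
open Pool.Agent.Results.MP_1ea25c_nt.AlmostAllTriples

/-- the weight of the `m > 1` with `(1 + m) ^ 2 ≤ t m` -/
noncomputable def HH (t : ℝ) : ℝ := 1 / 2 * ∫ m in {m : ℝ | 1 < m ∧ (1 + m) ^ 2 ≤ t * m}, s2 m

theorem HH_small {t : ℝ} (ht : t < 4) : HH t = 0 := by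
  have : {m : ℝ | 1 < m ∧ (1 + m) ^ 2 ≤ t * m} = ∅ := by
    rw [Set.eq_empty_iff_forall_notMem]
    rintro m ⟨h1, h2⟩
    nlinarith [sq_nonneg (m - 1)]
  unfold HH
  rw [this]
  simp

/-- the root -/
theorem exists_root {t : ℝ} (ht : 4 ≤ t) : ∃ M : ℝ, 1 ≤ M ∧ t - 3 ≤ M ∧
    ∀ m : ℝ, 1 ≤ m → ((1 + m) ^ 2 ≤ t * m ↔ m ≤ M) := by
  obtain ⟨s, hs⟩ : ∃ s, s = Real.sqrt (t * (t - 4)) := ⟨_, rfl⟩
  have hs0 : 0 ≤ s := by rw [hs]; exact Real.sqrt_nonneg _
  have hs2 : s * s = t * (t - 4) := by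
    rw [hs]
    exact Real.mul_self_sqrt (mul_nonneg (by linarith) (by linarith))
  have hM1 : 1 ≤ (t - 2 + s) / 2 := by linarith
  refine ⟨(t - 2 + s) / 2, hM1, ?_, fun m hm => ?_⟩
  · by_contra hcon
    rw [not_le] at hcon
    have h1 : s < t - 4 := by linarith
    nlinarith
  · have key : t * m - (1 + m) ^ 2 = ((t - 2 + s) / 2 - m) * (m - (t - 2 - s) / 2) := by
      have : ((t - 2 + s) / 2 - m) * (m - (t - 2 - s) / 2) =
        (t - 2) * m - m ^ 2 - ((t - 2) ^ 2 - s * s) / 4 := by ring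
      rw [this, hs2]
      ring
    have h1 : (t - 2 - s) / 2 ≤ 1 := by
      by_contra hcon
      rw [not_le] at hcon
      have h2 : s < t - 4 := by linarith
      nlinarith
    constructor
    · intro h
      by_contra hcon
      rw [not_le] at hcon
      have h2 : 0 ≤ t * m - (1 + m) ^ 2 := by linarith
      rw [key] at h2
      have h3 : 0 < m - (t - 2 - s) / 2 := by linarith
      have h4 : ((t - 2 + s) / 2 - m) * (m - (t - 2 - s) / 2) < 0 :=
        mul_neg_of_neg_of_pos (by linarith) h3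
      linarith
    · intro h
      have h2 : 0 ≤ ((t - 2 + s) / 2 - m) * (m - (t - 2 - s) / 2) :=
        mul_nonneg (by linarith) (by linarith)
      rw [← key] at h2
      linarith

theorem Ar_sub {M : ℝ} (hM : 1 ≤ M) : Ar 1 - Ar M = 1 / 2 * ∫ m in Set.Ioc 1 M, s2 m := by
  have h1 : ∫ m in Set.Ioi (1 : ℝ), s2 m = (∫ m in Set.Ioc 1 M, s2 m) + ∫ m in Set.Ioi M, s2 m := by
    rw [← setIntegral_union (Set.Ioc_disjoint_Ioi le_rfl) measurableSet_Ioi
      ((s2_int le_rfl).mono_set fun m hm => hm.1) (s2_int hM), Set.Ioc_union_Ioi_eq_Ioi hM]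
  unfold Ar
  rw [h1]
  ring

theorem HH_eq {t : ℝ} {M : ℝ} (hM : 1 ≤ M)
    (h : ∀ m : ℝ, 1 ≤ m → ((1 + m) ^ 2 ≤ t * m ↔ m ≤ M)) : HH t = Ar 1 - Ar M := by
  have e : {m : ℝ | 1 < m ∧ (1 + m) ^ 2 ≤ t * m} = Set.Ioc 1 M := by
    ext m
    constructor
    · rintro ⟨h1, h2⟩
      exact ⟨h1, (h m h1.le).1 h2⟩
    · rintro ⟨h1, h2⟩
      exact ⟨h1, (h m h1.le).2 h2⟩
  rw [Ar_sub hM]
  unfold HH
  rw [e]

theorem Ar_le {M : ℝ} (hM : 1 ≤ M) : Ar M ≤ 3 / 2 * M ^ (-(1 : ℝ) / 3) := by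
  have hM0 : 0 < M := by linarith
  have h1 : ∫ m in Set.Ioi M, s2 m ≤ ∫ m in Set.Ioi M, m ^ (-(4 : ℝ) / 3) :=
    setIntegral_mono_on (s2_int hM) (integrableOn_Ioi_rpow_of_lt (by norm_num) hM0)
      measurableSet_Ioi fun m hm => s2_le (by
        have : M < m := hm
        linarith)
  rw [integral_Ioi_rpow_of_lt (by norm_num) hM0] at h1
  have e : -M ^ (-(4 : ℝ) / 3 + 1) / (-(4 : ℝ) / 3 + 1) = 3 * M ^ (-(1 : ℝ) / 3) := by
    rw [show -(4 : ℝ) / 3 + 1 = -(1 : ℝ) / 3 by norm_num]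
    ring
  rw [e] at h1
  unfold Ar
  linarith

theorem Ar_pos {M : ℝ} (hM : 1 ≤ M) : 0 < Ar M := by
  have h1 : (∫ m in Set.Ioc M (M + 1), s2 (M + 1)) ≤ ∫ m in Set.Ioc M (M + 1), s2 m := by
    refine setIntegral_mono_on (by simp) ((s2_int hM).mono_set fun m hm => hm.1)
      measurableSet_Ioc fun m hm => ?_
    unfold s2
    have h2 := hm.1
    have h3 := hm.2
    exact Real.rpow_le_rpow_of_nonpos (by nlinarith) (by nlinarith) (by norm_num)
  have h2 : (∫ m in Set.Ioc M (M + 1), s2 (M + 1)) = s2 (M + 1) := by simp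
  have h3 : (∫ m in Set.Ioc M (M + 1), s2 m) ≤ ∫ m in Set.Ioi M, s2 m := by
    refine setIntegral_mono_set (s2_int hM) ?_ (Eventually.of_forall fun m hm => hm.1)
    refine (ae_restrict_iff' measurableSet_Ioi).2 (Eventually.of_forall fun m hm => ?_)
    have : M < m := hm
    exact s2_nonneg (by linarith)
  have h4 : 0 < s2 (M + 1) := by
    unfold s2
    have : 0 < (M + 1) * (1 + (M + 1)) := by nlinarith
    positivity
  unfold Ar
  linarith

theorem HH_nonneg (t : ℝ) : 0 ≤ HH t := by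
  unfold HH
  refine mul_nonneg (by norm_num) ?_
  have hm : MeasurableSet {m : ℝ | 1 < m ∧ (1 + m) ^ 2 ≤ t * m} :=
    (measurableSet_lt measurable_const measurable_id).inter
      (measurableSet_le (f := fun m : ℝ => (1 + m) ^ 2) (g := fun m : ℝ => t * m)
        (by fun_prop) (by fun_prop))
  refine setIntegral_nonneg hm fun m hm => s2_nonneg (by
    have := hm.1
    linarith)

theorem HH_lt (t : ℝ) : HH t < Ar 1 := by
  rcases lt_or_ge t 4 with ht | ht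
  · rw [HH_small ht]
    exact Ar_pos le_rfl
  · obtain ⟨M, h1, -, h2⟩ := exists_root ht
    rw [HH_eq h1 h2]
    linarith [Ar_pos h1]

theorem HH_tendsto : Tendsto HH atTop (𝓝 (Ar 1)) := by
  have h1 : Tendsto (fun t : ℝ => Ar 1 - 3 / 2 * (t - 3) ^ (-(1 : ℝ) / 3)) atTop
      (𝓝 (Ar 1 - 3 / 2 * 0)) := by
    refine tendsto_const_nhds.sub (Tendsto.const_mul _ ?_)
    have : Tendsto (fun t : ℝ => t ^ (-(1 / 3 : ℝ))) atTop (𝓝 0) :=
      tendsto_rpow_neg_atTop (by norm_num)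
    have h2 := this.comp (tendsto_atTop_add_const_right atTop (-3 : ℝ) tendsto_id)
    refine h2.congr fun t => ?_
    simp only [Function.comp, id]
    norm_num [sub_eq_add_neg]
  rw [mul_zero, sub_zero] at h1
  refine tendsto_of_tendsto_of_tendsto_of_le_of_le' h1 tendsto_const_nhds ?_
    (Eventually.of_forall fun t => (HH_lt t).le)
  filter_upwards [eventually_ge_atTop 4] with t ht
  obtain ⟨M, h2, h3, h4⟩ := exists_root ht
  rw [HH_eq h2 h4]
  have h5 := Ar_le h2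
  have h6 : M ^ (-(1 : ℝ) / 3) ≤ (t - 3) ^ (-(1 : ℝ) / 3) :=
    Real.rpow_le_rpow_of_nonpos (by linarith) h3 (by norm_num)
  linarith

/-- the triples with repeated part `w` and `c ≤ L rad ^ (1/3)` -/
def CW (w : ℕ) (L X : ℝ) : Set (ℕ × ℕ) :=
  {p | p ∈ triples X ∧ ((p.1 + p.2 : ℕ) : ℝ) ^ 3 ≤ L ^ 3 * rad3 p ∧ psi3 ∅ p = w}

theorem psi_rad {p : ℕ × ℕ} (h : Nat.Coprime p.1 p.2) :
    (psi3 ∅ p : ℝ) * rad3 p = (p.1 : ℝ) * p.2 * (p.1 + p.2) := by
  have h1 := coprime3 (P := ∅) h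
  rw [Pool.Agent.Y911.AB.radP_rad3] at h1
  exact_mod_cast h1

theorem CW_iff {w : ℕ} (hw : 0 < w) {L X : ℝ} {p : ℕ × ℕ} (hp : p ∈ triples X)
    (h : psi3 ∅ p = w) : ((p.1 + p.2 : ℕ) : ℝ) ^ 3 ≤ L ^ 3 * rad3 p ↔
      (1 + (p.2 : ℝ) / p.1) ^ 2 ≤ L ^ 3 / w * ((p.2 : ℝ) / p.1) := by
  obtain ⟨a1, a2, a3, -⟩ := hp
  have b1 : (0 : ℝ) < p.1 := by exact_mod_cast a1
  have b2 : (0 : ℝ) < p.2 := by exact_mod_cast lt_of_lt_of_le a1 a2
  have b3 : (0 : ℝ) < w := by exact_mod_cast hw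
  have h1 := psi_rad a3
  rw [h] at h1
  have h2 : (rad3 p : ℝ) = (p.1 : ℝ) * p.2 * (p.1 + p.2) / w := by
    rw [eq_div_iff b3.ne', ← h1]
    ring
  rw [h2]
  push_cast
  have e1 : (1 + (p.2 : ℝ) / p.1) ^ 2 = (p.1 + p.2 : ℝ) ^ 3 / ((p.1 : ℝ) ^ 2 * (p.1 + p.2)) := by
    field_simp
  have e2 : L ^ 3 / w * ((p.2 : ℝ) / p.1) =
      (L ^ 3 * ((p.1 : ℝ) * p.2 * (p.1 + p.2) / w)) / ((p.1 : ℝ) ^ 2 * (p.1 + p.2)) := by
    field_simp
  rw [e1, e2, div_le_div_iff_of_pos_right (by positivity)]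

theorem ratio_ge {X : ℝ} {p : ℕ × ℕ} (hp : p ∈ triples X) : 1 ≤ (p.2 : ℝ) / p.1 := by
  obtain ⟨a1, a2, a3, -⟩ := hp
  have b1 : (0 : ℝ) < p.1 := by exact_mod_cast a1
  rw [le_div_iff₀ b1, one_mul]
  exact_mod_cast a2

/-- at most one pair on a line -/
theorem line_le {μ : ℝ} {F : Set (ℕ × ℕ)} (hfin : F.Finite)
    (hF : ∀ p ∈ F, 0 < p.1 ∧ Nat.Coprime p.1 p.2 ∧ (p.2 : ℝ) = μ * p.1) : F.ncard ≤ 1 := by
  refine (Set.ncard_le_one hfin).2 fun p hp q hq => ?_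
  obtain ⟨a1, a2, a3⟩ := hF p hp
  obtain ⟨b1, b2, b3⟩ := hF q hq
  have h1 : (p.2 : ℝ) * q.1 = q.2 * p.1 := by
    rw [a3, b3]
    ring
  have h2 : p.2 * q.1 = q.2 * p.1 := by exact_mod_cast h1
  have h3 : p.1 ∣ q.1 := a2.dvd_of_dvd_mul_left (h2 ▸ Dvd.intro_left q.2 rfl)
  have h4 : q.1 ∣ p.1 := b2.dvd_of_dvd_mul_left (h2 ▸ Dvd.intro_left p.2 rfl)
  have h5 : p.1 = q.1 := Nat.dvd_antisymm h3 h4
  rw [h5] at h2
  exact Prod.ext h5 (Nat.eq_of_mul_eq_mul_right b1 h2)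

theorem CW_limit (w : ℕ) (L : ℝ) :
    Tendsto (fun X : ℝ => ((CW w L X).ncard : ℝ) / X ^ ((2 : ℝ) / 3)) atTop
      (𝓝 (c0 * rho w * HH (L ^ 3 / w))) := by
  rcases Nat.eq_zero_or_pos w with rfl | hw
  · have h0 : ∀ X : ℝ, CW 0 L X = ∅ := fun X => by
      rw [Set.eq_empty_iff_forall_notMem]
      rintro p ⟨⟨a1, a2, -, -⟩, -, h⟩
      have := psi3_pos a1 (lt_of_lt_of_le a1 a2)
      omega
    rw [rho_zero]
    simp only [h0, Set.ncard_empty]
    simp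
  rcases lt_or_ge (L ^ 3 / w) 4 with ht | ht
  · have h0 : ∀ X : ℝ, CW w L X = ∅ := fun X => by
      rw [Set.eq_empty_iff_forall_notMem]
      rintro p ⟨hp, h1, h2⟩
      rw [CW_iff hw hp h2] at h1
      have h3 := ratio_ge hp
      obtain ⟨m, hm⟩ : ∃ m : ℝ, m = (p.2 : ℝ) / p.1 := ⟨_, rfl⟩
      rw [← hm] at h1 h3
      nlinarith [sq_nonneg (m - 1)]
    rw [HH_small ht]
    simp only [h0, Set.ncard_empty]
    simp
  · obtain ⟨M, hM1, -, hM⟩ := exists_root ht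
    rw [HH_eq hM1 hM]
    have h1 := TW_limit w le_rfl
    have h2 := TW_limit w hM1
    have h3 := h1.sub h2
    rw [← mul_sub] at h3
    -- the difference
    have hX : Tendsto (fun X : ℝ => X ^ (-(2 / 3 : ℝ))) atTop (𝓝 0) :=
      tendsto_rpow_neg_atTop (by norm_num)
    have h4 : Tendsto (fun X : ℝ => ((CW w L X).ncard : ℝ) / X ^ ((2 : ℝ) / 3) -
        (((TW w 1 X).ncard : ℝ) / X ^ ((2 : ℝ) / 3) -
          ((TW w M X).ncard : ℝ) / X ^ ((2 : ℝ) / 3))) atTop (𝓝 0) := by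
      refine squeeze_zero_norm' ?_ hX
      filter_upwards [eventually_ge_atTop 1] with X hX1
      have hTf := Pool.Agent.Y911.AA.triples_finite' X
      have f1 : (CW w L X).Finite := hTf.subset fun p hp => hp.1
      have f2 : (TW w 1 X).Finite := hTf.subset fun p hp => hp.1
      have f3 : (TW w M X).Finite := hTf.subset fun p hp => hp.1
      have hiff : ∀ p ∈ triples X, psi3 ∅ p = w →
          (((p.1 + p.2 : ℕ) : ℝ) ^ 3 ≤ L ^ 3 * rad3 p ↔ (p.2 : ℝ) ≤ M * p.1) := by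
        intro p hp h
        have b1 : (0 : ℝ) < p.1 := by exact_mod_cast hp.1
        rw [CW_iff hw hp h, hM _ (ratio_ge hp), div_le_iff₀ b1]
      have hcov : CW w L X ∪ TW w M X = TW w 1 X := by
        ext p
        constructor
        · rintro (⟨a1, a2, a3⟩ | ⟨a1, a2, a3⟩)
          · exact ⟨a1, by rw [one_mul]; exact_mod_cast a1.2.1, a3⟩
          · exact ⟨a1, by rw [one_mul]; exact_mod_cast a1.2.1, a3⟩
        · rintro ⟨a1, a2, a3⟩
          rcases le_total (p.2 : ℝ) (M * p.1) with h | h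
          · exact Or.inl ⟨a1, (hiff p a1 a3).2 h, a3⟩
          · exact Or.inr ⟨a1, h, a3⟩
      have hint : (CW w L X ∩ TW w M X).ncard ≤ 1 := by
        refine line_le (μ := M) (f1.subset Set.inter_subset_left) ?_
        rintro p ⟨⟨a1, a2, a3⟩, -, a5, -⟩
        exact ⟨a1.1, a1.2.2.1, le_antisymm ((hiff p a1 a3).1 a2) a5⟩
      have hsum := Set.ncard_union_add_ncard_inter (CW w L X) (TW w M X) f1 f3
      rw [hcov] at hsum
      have h5 : ((CW w L X).ncard : ℝ) - (((TW w 1 X).ncard : ℝ) - ((TW w M X).ncard : ℝ)) =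
          ((CW w L X ∩ TW w M X).ncard : ℝ) := by
        have : ((TW w 1 X).ncard : ℝ) + ((CW w L X ∩ TW w M X).ncard : ℝ) =
            (CW w L X).ncard + (TW w M X).ncard := by exact_mod_cast hsum
        linarith
      have h6 : ((CW w L X ∩ TW w M X).ncard : ℝ) ≤ 1 := by exact_mod_cast hint
      rw [← sub_div, ← sub_div, h5, Real.norm_eq_abs, abs_of_nonneg (by positivity),
        Real.rpow_neg (by linarith), div_eq_mul_inv]
      calc ((CW w L X ∩ TW w M X).ncard : ℝ) * (X ^ ((2 : ℝ) / 3))⁻¹ ≤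
            1 * (X ^ ((2 : ℝ) / 3))⁻¹ := mul_le_mul_of_nonneg_right h6 (by positivity)
        _ = _ := one_mul _
    have h5 := h4.add h3
    rw [zero_add] at h5
    refine h5.congr fun X => ?_
    ring

/-- the distribution function -/
noncomputable def GG (L : ℝ) : ℝ := c0 * ∑' w : ℕ, rho w * HH (L ^ 3 / w)

theorem GG_term_le (w : ℕ) (L : ℝ) : rho w * HH (L ^ 3 / w) ≤ rho w * Ar 1 :=
  mul_le_mul_of_nonneg_left (HH_lt _).le (rho_nonneg w)

/-- **The law of `c / rad ^ (1/3)`.** -/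
theorem dist (L : ℝ) :
    Tendsto (fun X : ℝ => (({p | p ∈ triples X ∧ ((p.1 + p.2 : ℕ) : ℝ) ^ 3 ≤ L ^ 3 * rad3 p} :
      Set (ℕ × ℕ)).ncard : ℝ) / X ^ ((2 : ℝ) / 3)) atTop (𝓝 (GG L)) := by
  have h := law (Q := fun p => ((p.1 + p.2 : ℕ) : ℝ) ^ 3 ≤ L ^ 3 * rad3 p)
    (l := fun w => c0 * rho w * HH (L ^ 3 / w))
    (fun w => mul_nonneg (mul_nonneg c0_nonneg (rho_nonneg w)) (HH_nonneg _))
    fun w => CW_limit w L
  have h2 := h.2
  have e : ∑' w : ℕ, c0 * rho w * HH (L ^ 3 / w) = GG L := by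
    unfold GG
    rw [← tsum_mul_left]
    exact tsum_congr fun w => by ring
  rw [e] at h2
  exact h2

theorem GG_lt (L : ℝ) : GG L < c0 * (∑' w, rho w) * Ar 1 := by
  obtain ⟨h1, h2, h3, -⟩ := consts
  have hs : Summable fun w : ℕ => rho w * Ar 1 := h3.mul_right _
  have hs2 : Summable fun w : ℕ => rho w * HH (L ^ 3 / w) :=
    Summable.of_nonneg_of_le (fun w => mul_nonneg (rho_nonneg w) (HH_nonneg _))
      (fun w => GG_term_le w L) hs
  have h4 : rho 1 * HH (L ^ 3 / (1 : ℕ)) < rho 1 * Ar 1 := by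
    refine mul_lt_mul_of_pos_left (HH_lt _) ?_
    unfold rho gw
    simp
  have h5 : ∑' w : ℕ, rho w * HH (L ^ 3 / w) < ∑' w : ℕ, rho w * Ar 1 :=
    Summable.tsum_lt_tsum (i := 1) (fun w => GG_term_le w L) h4 hs2 hs
  rw [tsum_mul_right] at h5
  unfold GG
  rw [mul_assoc]
  exact mul_lt_mul_of_pos_left h5 h1

theorem GG_tendsto : Tendsto GG atTop (𝓝 (c0 * (∑' w, rho w) * Ar 1)) := by
  obtain ⟨h1, h2, h3, -⟩ := consts
  have hs : Summable fun w : ℕ => rho w * Ar 1 := h3.mul_right _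
  have h : Tendsto (fun L : ℝ => ∑' w : ℕ, rho w * HH (L ^ 3 / w)) atTop
      (𝓝 (∑' w : ℕ, rho w * Ar 1)) := by
    refine tendsto_tsum_of_dominated_convergence (bound := fun w => rho w * Ar 1) hs
      (fun w => ?_) (Eventually.of_forall fun L w => ?_)
    · rcases Nat.eq_zero_or_pos w with rfl | hw
      · simp only [rho_zero, zero_mul]
        exact tendsto_const_nhds
      · refine (HH_tendsto.comp ?_).const_mul _
        exact (tendsto_pow_atTop (by norm_num)).atTop_div_const (by exact_mod_cast hw)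
    · rw [Real.norm_eq_abs, abs_of_nonneg (mul_nonneg (rho_nonneg w) (HH_nonneg _))]
      exact GG_term_le w L
  rw [tsum_mul_right] at h
  have := h.const_mul c0
  rw [← mul_assoc] at this
  exact this

end Pool.Agent.Y911.JL
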