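import Pool.Agent.Y911.JL.Dist
import Mathlib.NumberTheory.EulerProduct.Basic

/-! The constant as an Euler product. -/

set_option autoImplicit false

namespace Pool.Agent.Y911.JL

open Finset Filter Topology

theorem gw_mul {m n : ℕ} (h : Nat.Coprime m n) : gw (m * n) = gw m * gw n := by
  unfold gw
  rw [h.primeFactors_mul, prod_union h.disjoint_primeFactors]

theorem rho_mul {m n : ℕ} (h : Nat.Coprime m n) : rho (m * n) = rho m * rho n := by
  unfold rho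
  rw [gw_mul h]
  push_cast
  rw [Real.mul_rpow (Nat.cast_nonneg _) (Nat.cast_nonneg _)]
  ring

theorem rho_one : rho 1 = 1 := by
  unfold rho gw
  simp

theorem rho_pow {q : ℕ} (hq : q.Prime) (e : ℕ) :
    rho (q ^ (e + 1)) = hh q * (q : ℝ) ^ (-(1 : ℝ) / 3) * ((q : ℝ) ^ (-(1 : ℝ) / 3)) ^ e := by
  have hq0 : (0 : ℝ) ≤ q := Nat.cast_nonneg _
  unfold rho gw
  rw [Nat.primeFactors_prime_pow (Nat.succ_ne_zero e) hq, prod_singleton]
  push_cast
  rw [← Real.rpow_natCast (q : ℝ) (e + 1), ← Real.rpow_mul hq0, mul_comm (((e + 1 : ℕ) : ℝ)),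
    Real.rpow_mul hq0, Real.rpow_natCast, pow_succ]
  ring

/-- the local factor -/
noncomputable def ff (q : ℕ) : ℝ :=
  (1 - 1 / (q : ℝ)) * (1 + 1 / (q : ℝ) + 3 * (q : ℝ) ^ (-(4 : ℝ) / 3) + 3 * (q : ℝ) ^ (-(5 : ℝ) / 3))

theorem local_eq {q : ℕ} (hq : q.Prime) (hs : Summable rho) :
    ee q * ∑' e, rho (q ^ e) = ff q := by
  have hq1 : 1 < q := hq.one_lt
  have hqr : (1 : ℝ) < q := by exact_mod_cast hq1
  have hq0 : (0 : ℝ) < q := by linarith
  obtain ⟨z, hz⟩ : ∃ z : ℝ, z = (q : ℝ) ^ (-(1 : ℝ) / 3) := ⟨_, rfl⟩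
  have hz0 : 0 < z := by rw [hz]; positivity
  have hz1 : z < 1 := by
    rw [hz]
    exact Real.rpow_lt_one_of_one_lt_of_neg hqr (by norm_num)
  have h1 : Summable fun e : ℕ => rho (q ^ e) :=
    hs.comp_injective (Nat.pow_right_injective hq1)
  have h2 : ∑' e, rho (q ^ e) = 1 + hh q * z * (1 - z)⁻¹ := by
    rw [h1.tsum_eq_zero_add, pow_zero, rho_one]
    congr 1
    rw [← tsum_geometric_of_lt_one hz0.le hz1, ← tsum_mul_left]
    refine tsum_congr fun e => ?_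
    rw [rho_pow hq, ← hz]
  have z3 : (1 : ℝ) / q = z ^ 3 := by
    rw [hz, ← Real.rpow_natCast, ← Real.rpow_mul hq0.le, one_div, ← Real.rpow_neg_one]
    norm_num
  have z4 : (q : ℝ) ^ (-(4 : ℝ) / 3) = z ^ 4 := by
    rw [hz, ← Real.rpow_natCast, ← Real.rpow_mul hq0.le]
    norm_num
  have z5 : (q : ℝ) ^ (-(5 : ℝ) / 3) = z ^ 5 := by
    rw [hz, ← Real.rpow_natCast, ← Real.rpow_mul hq0.le]
    norm_num
  have e1 : ee q = 1 - 4 * z ^ 6 + 3 * z ^ 9 := by
    unfold ee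
    have : z ^ 6 = (1 / (q : ℝ)) ^ 2 := by rw [z3]; ring
    rw [this]
    have : z ^ 9 = (1 / (q : ℝ)) ^ 3 := by rw [z3]; ring
    rw [this]
    ring
  have e2 : ee q * hh q = 3 * (1 - z ^ 3) ^ 2 * z ^ 3 := by
    rw [ee_hh hq.two_le, ← z3]
    field_simp
  have hne : (1 - z) ≠ 0 := by
    intro h
    linarith
  rw [h2]
  unfold ff
  rw [z3, z4, z5]
  have e3 : ee q * (1 + hh q * z * (1 - z)⁻¹) = ee q + (ee q * hh q) * z * (1 - z)⁻¹ := by ring
  rw [e3, e2, e1]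
  field_simp
  ring

/-- **The constant as an Euler product.** -/
theorem euler : Tendsto (fun n : ℕ => ∏ q ∈ n.primesBelow, ff q) atTop
    (𝓝 (c0 * ∑' w, rho w)) := by
  obtain ⟨-, -, hs, -⟩ := consts
  have h1 : Tendsto (fun n : ℕ => ∏ q ∈ n.primesBelow, ∑' e, rho (q ^ e)) atTop
      (𝓝 (∑' w, rho w)) :=
    EulerProduct.eulerProduct rho_one (fun h => rho_mul h) hs.norm rho_zero
  have h2 : Tendsto (fun n : ℕ => ∏ q ∈ n.primesBelow, ee q) atTop (𝓝 c0) := by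
    rw [← tendsto_add_atTop_iff_nat 1]
    exact pp_tendsto
  refine (h2.mul h1).congr fun n => ?_
  rw [← prod_mul_distrib]
  exact prod_congr rfl fun q hq => local_eq (Nat.prime_of_mem_primesBelow hq) hs

end Pool.Agent.Y911.JL
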