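import Pool.Agent.Y911.JL.Main

/-! The constants and the joint law. -/

set_option autoImplicit false

namespace Pool.Agent.Y911.JL

open Finset Filter Topology Pool.Agent.TH498.AR
open Pool.Agent.Results.MP_1ea25c_nt.AlmostAllTriples

theorem TW_one (w : ℕ) (X : ℝ) :
    ({p | p ∈ triples X ∧ True ∧ psi3 ∅ p = w} : Set (ℕ × ℕ)) = TW w 1 X := by
  ext p
  constructor
  · rintro ⟨h1, -, h2⟩
    refine ⟨h1, ?_, h2⟩
    rw [one_mul]
    exact_mod_cast h1.2.1
  · rintro ⟨h1, -, h2⟩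
    exact ⟨h1, trivial, h2⟩

theorem total_aux : Summable (fun w => c0 * rho w * Ar 1) ∧
    Tendsto (fun X : ℝ => ((triples X).ncard : ℝ) / X ^ ((2 : ℝ) / 3)) atTop
      (𝓝 (∑' w, c0 * rho w * Ar 1)) := by
  have h := law (Q := fun _ => True) (l := fun w => c0 * rho w * Ar 1)
    (fun w => mul_nonneg (mul_nonneg c0_nonneg (rho_nonneg w)) (Ar_nonneg le_rfl)) fun w => by
      simp only [TW_one]
      exact TW_limit w le_rfl
  refine ⟨h.1, ?_⟩
  have e : ∀ X : ℝ, ({p | p ∈ triples X ∧ True} : Set (ℕ × ℕ)) = triples X := fun X => by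
    ext p
    simp
  simp only [e] at h
  exact h.2

theorem consts : 0 < c0 ∧ 0 < Ar 1 ∧ Summable rho ∧ 0 < ∑' w, rho w := by
  obtain ⟨κ, hκ, h1, -⟩ := Pool.Agent.Y911.AA.main
  obtain ⟨h2, h3⟩ := total_aux
  have h4 : ∑' w, c0 * rho w * Ar 1 = κ := tendsto_nhds_unique h3 h1
  have hc : c0 ≠ 0 := by
    intro h
    rw [h] at h4
    simp only [zero_mul, tsum_zero] at h4
    exact hκ.ne h4
  have hA : Ar 1 ≠ 0 := by
    intro h
    rw [h] at h4
    simp only [mul_zero, tsum_zero] at h4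
    exact hκ.ne h4
  have hs : Summable rho := by
    have h5 := h2.mul_left (c0 * Ar 1)⁻¹
    refine h5.congr fun w => ?_
    field_simp
  refine ⟨lt_of_le_of_ne c0_nonneg hc.symm, lt_of_le_of_ne (Ar_nonneg le_rfl) hA.symm, hs, ?_⟩
  refine lt_of_le_of_ne (tsum_nonneg rho_nonneg) fun h => ?_
  rw [tsum_mul_right, tsum_mul_left, ← h] at h4
  simp only [mul_zero, zero_mul] at h4
  exact hκ.ne h4

/-- **The number of triples.** -/
theorem total : Tendsto (fun X : ℝ => ((triples X).ncard : ℝ) / X ^ ((2 : ℝ) / 3)) atTop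
      (𝓝 (c0 * (∑' w, rho w) * Ar 1)) := by
  have h := total_aux.2
  rw [tsum_mul_right, tsum_mul_left] at h
  exact h

/-- **The joint law of the repeated part and of the shape.** -/
theorem joint (S : Set ℕ) {μ : ℝ} (hμ : 1 ≤ μ) :
    Tendsto (fun X : ℝ => (({p | p ∈ triples X ∧ psi3 ∅ p ∈ S ∧ μ * p.1 ≤ p.2} :
      Set (ℕ × ℕ)).ncard : ℝ) / X ^ ((2 : ℝ) / 3)) atTop
      (𝓝 (c0 * (∑' w, S.indicator rho w) * Ar μ)) := by
  classical
  have h := law (Q := fun p => psi3 ∅ p ∈ S ∧ μ * p.1 ≤ p.2)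
    (l := fun w => c0 * S.indicator rho w * Ar μ)
    (fun w => mul_nonneg (mul_nonneg c0_nonneg (Set.indicator_nonneg (fun w _ => rho_nonneg w) w))
      (Ar_nonneg hμ)) fun w => by
      by_cases hw : w ∈ S
      · rw [Set.indicator_of_mem hw]
        have e : ∀ X : ℝ, ({p | p ∈ triples X ∧ (psi3 ∅ p ∈ S ∧ μ * p.1 ≤ p.2) ∧ psi3 ∅ p = w} :
            Set (ℕ × ℕ)) = TW w μ X := fun X => by
          ext p
          constructor
          · rintro ⟨a1, ⟨-, a2⟩, a3⟩
            exact ⟨a1, a2, a3⟩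
          · rintro ⟨a1, a2, a3⟩
            exact ⟨a1, ⟨by rw [a3]; exact hw, a2⟩, a3⟩
        simp only [e]
        exact TW_limit w hμ
      · rw [Set.indicator_of_notMem hw]
        have e : ∀ X : ℝ, ({p | p ∈ triples X ∧ (psi3 ∅ p ∈ S ∧ μ * p.1 ≤ p.2) ∧ psi3 ∅ p = w} :
            Set (ℕ × ℕ)) = ∅ := fun X => by
          rw [Set.eq_empty_iff_forall_notMem]
          rintro p ⟨a1, ⟨a2, -⟩, a3⟩
          exact hw (by rw [← a3]; exact a2)
        simp only [e, Set.ncard_empty]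
        simp
  have h2 := h.2
  rw [tsum_mul_right, tsum_mul_left] at h2
  exact h2

end Pool.Agent.Y911.JL
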