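import Pool.Agent.Y911.JL.Area
import Pool.Agent.Y911.JL.Dens

/-! The limits. -/

set_option autoImplicit false

namespace Pool.Agent.Y911.JL

open Finset Filter Topology Pool.Agent.TH498.AR

theorem ee_bounds {q : ℕ} (hq : q.Prime) : 0 < ee q ∧ ee q ≤ 1 := by
  have hq2 : (2 : ℝ) ≤ q := by exact_mod_cast hq.two_le
  have hq0 : (0 : ℝ) < q := by linarith
  have h1 : ee q = (((q : ℝ) - 1) * ((q : ℝ) ^ 2 + q - 3)) / (q : ℝ) ^ 3 := by
    unfold ee
    field_simp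
    ring
  have hden : (0 : ℝ) < (q : ℝ) ^ 2 + q - 3 := by nlinarith
  constructor
  · rw [h1]
    exact div_pos (mul_pos (by linarith) hden) (by positivity)
  · rw [h1, div_le_one (by positivity)]
    nlinarith

/-- the partial products -/
noncomputable def pp (P : ℕ) : ℝ := ∏ q ∈ PP P, ee q

theorem pp_pos (P : ℕ) : 0 < pp P := prod_pos fun _ hq => (ee_bounds (mem_PP.1 hq).2).1

theorem pp_anti : Antitone pp := by
  intro P P' h
  have hsub : PP P ⊆ PP P' := by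
    intro q hq
    rw [mem_PP] at hq ⊢
    exact ⟨hq.1.trans h, hq.2⟩
  unfold pp
  rw [← prod_sdiff hsub]
  have h1 : ∏ q ∈ PP P' \ PP P, ee q ≤ 1 := by
    refine prod_le_one (fun q hq => ?_) fun q hq => ?_
    · exact (ee_bounds (mem_PP.1 (Finset.mem_sdiff.1 hq).1).2).1.le
    · exact (ee_bounds (mem_PP.1 (Finset.mem_sdiff.1 hq).1).2).2
  calc (∏ q ∈ PP P' \ PP P, ee q) * ∏ q ∈ PP P, ee q ≤ 1 * ∏ q ∈ PP P, ee q :=
        mul_le_mul_of_nonneg_right h1 (pp_pos P).le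
    _ = _ := one_mul _

/-- the constant -/
noncomputable def c0 : ℝ := ⨅ P, pp P

theorem c0_nonneg : 0 ≤ c0 := Real.iInf_nonneg fun P => (pp_pos P).le

theorem pp_tendsto : Tendsto pp atTop (𝓝 c0) :=
  tendsto_atTop_ciInf pp_anti ⟨0, by rintro _ ⟨P, rfl⟩; exact (pp_pos P).le⟩

theorem hh_nonneg {q : ℕ} (hq : q.Prime) : 0 ≤ hh q := by
  have hq2 : (2 : ℝ) ≤ q := by exact_mod_cast hq.two_le
  unfold hh
  refine div_nonneg ?_ ?_
  · linarith
  · nlinarith

/-- the product of the weights -/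
noncomputable def gw (w : ℕ) : ℝ := ∏ q ∈ w.primeFactors, hh q

theorem gw_nonneg (w : ℕ) : 0 ≤ gw w :=
  prod_nonneg fun _ hq => hh_nonneg (Nat.prime_of_mem_primeFactors hq)

theorem dn_tendsto {w : ℕ} (hw : 0 < w) :
    Tendsto (fun P => dn w P) atTop (𝓝 (c0 * (gw w / w))) := by
  refine (pp_tendsto.mul_const (gw w / w)).congr' ?_
  filter_upwards [eventually_ge_atTop w] with P hP
  rw [dn_eq hw hP]
  rfl

theorem Ar_nonneg {μ : ℝ} (hμ : 1 ≤ μ) : 0 ≤ Ar μ := by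
  unfold Ar
  refine mul_nonneg (by norm_num) (MeasureTheory.setIntegral_nonneg measurableSet_Ioi fun m hm => ?_)
  have h1 : μ < m := hm
  exact s2_nonneg (by linarith)

/-- **The density of the pairs with repeated part `w` and `b ≥ μ a`.** -/
theorem NM_limit {w : ℕ} (hw : 0 < w) {μ : ℝ} (hμ : 1 ≤ μ) :
    Tendsto (fun x : ℝ => ((NM w μ x).ncard : ℝ) / x ^ 2) atTop
      (𝓝 (c0 * (gw w / w) * Ar μ)) := by
  rw [Metric.tendsto_nhds]
  intro ε hε
  obtain ⟨D, hD⟩ : ∃ D, D = c0 * (gw w / w) := ⟨_, rfl⟩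
  rw [← hD]
  -- choice of `η`
  have h1 : Tendsto (fun η => D * JJ μ η) (𝓝[>] 0) (𝓝 (D * Ar μ)) :=
    (JJ_tendsto hμ).const_mul D
  have h2 : Tendsto (fun η : ℝ => 2 * Real.sqrt η) (𝓝[>] 0) (𝓝 (2 * Real.sqrt 0)) :=
    ((continuous_const.mul Real.continuous_sqrt).tendsto 0).mono_left nhdsWithin_le_nhds
  rw [Real.sqrt_zero, mul_zero] at h2
  have e1 := (Metric.tendsto_nhds.1 h1) (ε / 5) (by positivity)
  have e2 := h2.eventually (eventually_lt_nhds (by positivity : (0 : ℝ) < ε / 5))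
  have e3 : ∀ᶠ η : ℝ in 𝓝[>] 0, η ∈ Set.Ioc (0 : ℝ) 1 := Ioc_mem_nhdsGT one_pos
  obtain ⟨η, hη1, hη2, hη3⟩ := (e1.and (e2.and e3)).exists
  -- choice of `P`
  have h3 : Tendsto (fun P => dn w P * JJ μ η) atTop (𝓝 (D * JJ μ η)) := by
    rw [hD]
    exact (dn_tendsto hw).mul_const _
  have h4 : Tendsto (fun P : ℕ => 5 / (η * (P : ℝ))) atTop (𝓝 0) := by
    have : Tendsto (fun P : ℕ => η * (P : ℝ)) atTop atTop :=
      tendsto_natCast_atTop_atTop.const_mul_atTop hη3.1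
    exact tendsto_const_nhds.div_atTop this
  have f1 := (Metric.tendsto_nhds.1 h3) (ε / 5) (by positivity)
  have f2 := h4.eventually (eventually_lt_nhds (by positivity : (0 : ℝ) < ε / 5))
  obtain ⟨P, hP1, hP2, hP3⟩ := (f1.and (f2.and (eventually_ge_atTop (w + 1)))).exists
  obtain ⟨C, hC⟩ := NM_approx hw hμ hη3.1 hη3.2 hP3
  have h5 : Tendsto (fun x : ℝ => |C| / x) atTop (𝓝 0) := tendsto_const_nhds.div_atTop tendsto_id
  have g1 := h5.eventually (eventually_lt_nhds (by positivity : (0 : ℝ) < ε / 5))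
  filter_upwards [g1, eventually_ge_atTop 1] with x hx1 hx
  have hx0 : 0 < x := by linarith
  have hx2 : 0 < x ^ 2 := by positivity
  obtain ⟨-, hb⟩ := hC x hx
  have h6 : |((NM w μ x).ncard : ℝ) / x ^ 2 - dn w P * JJ μ η| ≤
      2 * Real.sqrt η + 5 / (η * P) + |C| / x := by
    have e : ((NM w μ x).ncard : ℝ) / x ^ 2 - dn w P * JJ μ η =
        (((NM w μ x).ncard : ℝ) - dn w P * JJ μ η * x ^ 2) / x ^ 2 := by
      field_simp
    rw [e, abs_div, abs_of_pos hx2, div_le_iff₀ hx2]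
    refine hb.trans ?_
    have e4 : (2 * Real.sqrt η + 5 / (η * P) + |C| / x) * x ^ 2 =
        (2 * Real.sqrt η + 5 / (η * P)) * x ^ 2 + |C| * x := by
      field_simp
    rw [e4]
    have := mul_le_mul_of_nonneg_right (le_abs_self C) hx0.le
    linarith
  rw [Real.dist_eq] at hη1 hP1 ⊢
  have e5 : ((NM w μ x).ncard : ℝ) / x ^ 2 - D * Ar μ =
      (((NM w μ x).ncard : ℝ) / x ^ 2 - dn w P * JJ μ η) + (dn w P * JJ μ η - D * JJ μ η) +
        (D * JJ μ η - D * Ar μ) := by ring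
  rw [e5]
  refine lt_of_le_of_lt ((abs_add_le _ _).trans (add_le_add_left (abs_add_le _ _) _)) ?_
  linarith

end Pool.Agent.Y911.JL
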