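import Pool.Agent.Y911.JL.Ser
import Pool.Agent.Y911.AA.Main
import Pool.Agent.Y911.AB.Upper

/-! The distribution of the repeated part and of the shape. -/

set_option autoImplicit false

namespace Pool.Agent.Y911.JL

open Finset Filter Topology Pool.Agent.TH498.AR
open Pool.Agent.Results.MP_1ea25c_nt.AlmostAllTriples
open Pool.Agent.Y911.AA (viol)

/-- the weight of a repeated part -/
noncomputable def rho (w : ℕ) : ℝ := (w : ℝ) ^ (-(1 : ℝ) / 3) * gw w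

theorem rho_nonneg (w : ℕ) : 0 ≤ rho w := mul_nonneg (by positivity) (gw_nonneg w)

theorem rho_zero : rho 0 = 0 := by
  unfold rho
  rw [Nat.cast_zero, Real.zero_rpow (by norm_num), zero_mul]

/-- the triples with repeated part `w` and `b ≥ μ a` -/
def TW (w : ℕ) (μ X : ℝ) : Set (ℕ × ℕ) := {p | p ∈ triples X ∧ μ * p.1 ≤ p.2 ∧ psi3 ∅ p = w}

theorem rd_rad3 (p : ℕ × ℕ) : rd (p.1 * p.2 * (p.1 + p.2)) = rad3 p := by
  rw [rd_eq]
  exact Pool.Agent.Y911.AB.radP_rad3 p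

theorem TW_eq {w : ℕ} {μ : ℝ} (hμ : 1 ≤ μ) {X : ℝ} (hX : 0 < X) :
    TW w μ X = NM w μ (((w : ℝ) * X) ^ ((1 : ℝ) / 3)) := by
  ext p
  constructor
  · rintro ⟨⟨a1, a2, a3, a4⟩, a5, rfl⟩
    refine ⟨a1, a5, a3, rfl, ?_⟩
    rw [← rd_le_iff a1 (by omega) a3 hX, rd_rad3]
    exact a4
  · rintro ⟨a1, a2, a3, rfl, a5⟩
    have a6 := le_of_cone hμ a2
    refine ⟨⟨a1, a6, a3, ?_⟩, a2, rfl⟩
    rw [← rd_rad3, rd_le_iff a1 (by omega) a3 hX]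
    exact a5

theorem TW_zero (μ X : ℝ) : TW 0 μ X = ∅ := by
  rw [Set.eq_empty_iff_forall_notMem]
  rintro p ⟨⟨a1, a2, -, -⟩, -, h⟩
  have := psi3_pos a1 (lt_of_lt_of_le a1 a2)
  omega

theorem TW_limit (w : ℕ) {μ : ℝ} (hμ : 1 ≤ μ) :
    Tendsto (fun X : ℝ => ((TW w μ X).ncard : ℝ) / X ^ ((2 : ℝ) / 3)) atTop
      (𝓝 (c0 * rho w * Ar μ)) := by
  rcases Nat.eq_zero_or_pos w with rfl | hw
  · rw [rho_zero]
    simp only [TW_zero, Set.ncard_empty]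
    simp
  have hw0 : (0 : ℝ) < w := by exact_mod_cast hw
  have h1 : Tendsto (fun X : ℝ => ((NM w μ (((w : ℝ) * X) ^ ((1 : ℝ) / 3))).ncard : ℝ) /
      (((w : ℝ) * X) ^ ((1 : ℝ) / 3)) ^ 2 * (w : ℝ) ^ ((2 : ℝ) / 3)) atTop
      (𝓝 (c0 * (gw w / w) * Ar μ * (w : ℝ) ^ ((2 : ℝ) / 3))) := by
    refine Tendsto.mul_const _ ((NM_limit hw hμ).comp ?_)
    refine (tendsto_rpow_atTop (by norm_num)).comp ?_
    exact tendsto_id.const_mul_atTop hw0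
  have e : c0 * (gw w / w) * Ar μ * (w : ℝ) ^ ((2 : ℝ) / 3) = c0 * rho w * Ar μ := by
    have e1 : (w : ℝ) ^ (-(1 : ℝ) / 3) = (w : ℝ) ^ ((2 : ℝ) / 3) / w := by
      rw [← Real.rpow_sub_one hw0.ne']
      norm_num
    unfold rho
    rw [e1]
    ring
  rw [e] at h1
  refine h1.congr' ?_
  filter_upwards [eventually_gt_atTop 0] with X hX
  rw [TW_eq hμ hX]
  have e : (((w : ℝ) * X) ^ ((1 : ℝ) / 3)) ^ 2 = (w : ℝ) ^ ((2 : ℝ) / 3) * X ^ ((2 : ℝ) / 3) := by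
    rw [← Real.rpow_natCast, ← Real.rpow_mul (by positivity), Real.mul_rpow hw0.le hX.le]
    norm_num
  rw [e]
  have h1 : (w : ℝ) ^ ((2 : ℝ) / 3) ≠ 0 := by positivity
  have h2 : X ^ ((2 : ℝ) / 3) ≠ 0 := by positivity
  field_simp

/-- **The triples with a large repeated part, of all heights.** -/
theorem tail_all : ∃ ν C : ℝ, 0 < ν ∧ 0 < C ∧ ∀ X W : ℝ, 1 ≤ X → 1 ≤ W →
    (({p | p ∈ triples X ∧ W ≤ (psi3 ∅ p : ℝ)} : Set (ℕ × ℕ)).ncard : ℝ) ≤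
      C * (W ^ (-(1 / 10) : ℝ) * X ^ ((2 : ℝ) / 3) + X ^ (2 / 3 - ν)) := by
  classical
  obtain ⟨ν1, C1, hν1, -, hC1, h1⟩ := Pool.Agent.Y911.AA.saving (ε := 2 / 3) (by norm_num)
  obtain ⟨C2, hC2, h2⟩ := tail 1
  refine ⟨min ν1 (1 / 480), C1 + C2, lt_min hν1 (by norm_num), by positivity,
    fun X W hX hW => ?_⟩
  obtain ⟨ν, hν⟩ : ∃ ν, ν = min ν1 (1 / 480) := ⟨_, rfl⟩
  rw [← hν]
  have v1 : ν ≤ ν1 := by rw [hν]; exact min_le_left _ _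
  have v2 : ν ≤ 1 / 480 := by rw [hν]; exact min_le_right _ _
  have hX0 : 0 < X := by linarith
  have hfin : ({p | p ∈ triples X ∧ W ≤ (psi3 ∅ p : ℝ)} : Set (ℕ × ℕ)).Finite :=
    (Pool.Agent.Y911.AA.triples_finite' X).subset fun p hp => hp.1
  have hvf : (viol (1 / 3 + 2 / 3) X).Finite :=
    (Pool.Agent.Y911.AA.triples_finite' X).subset fun p hp => hp.1
  obtain ⟨E, hE⟩ : ∃ E : Finset (ℕ × ℕ), E = hfin.toFinset.filter
    fun p => ((p.1 + p.2 : ℕ) : ℝ) ≤ X ^ (1 : ℝ) := ⟨_, rfl⟩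
  have hsub : hfin.toFinset ⊆ E ∪ hvf.toFinset := by
    intro p hp
    rw [Set.Finite.mem_toFinset] at hp
    rw [Finset.mem_union]
    by_cases hc : ((p.1 + p.2 : ℕ) : ℝ) ≤ X ^ (1 : ℝ)
    · left
      rw [hE, Finset.mem_filter, Set.Finite.mem_toFinset]
      exact ⟨hp, hc⟩
    · right
      rw [Set.Finite.mem_toFinset]
      refine ⟨hp.1, ?_⟩
      rw [not_le] at hc
      refine le_trans ?_ hc.le
      rw [show (1 : ℝ) / 3 + 2 / 3 = 1 by norm_num, Real.rpow_one, Real.rpow_one]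
      exact hp.1.2.2.2
  have hEc := h2 X W hX hW E fun p hp => by
    rw [hE, Finset.mem_filter, Set.Finite.mem_toFinset] at hp
    obtain ⟨⟨⟨a1, a2, a3, a4⟩, a5⟩, a6⟩ := hp
    refine ⟨a1, a2, a3, ?_, a6, a5⟩
    rw [Pool.Agent.Y911.AB.radP_rad3]
    exact a4
  have hVc := h1 X hX
  have k1 : X ^ (2 / 3 - ν1) ≤ X ^ (2 / 3 - ν) :=
    Real.rpow_le_rpow_of_exponent_le hX (by linarith)
  have k2 : X ^ (2 / 3 - 1 / 480 : ℝ) ≤ X ^ (2 / 3 - ν) :=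
    Real.rpow_le_rpow_of_exponent_le hX (by linarith)
  have k3 : 0 ≤ W ^ (-(1 / 10) : ℝ) * X ^ ((2 : ℝ) / 3) := by positivity
  rw [Set.ncard_eq_toFinset_card _ hfin]
  rw [Set.ncard_eq_toFinset_card _ hvf] at hVc
  have h3 : (hfin.toFinset.card : ℝ) ≤ E.card + hvf.toFinset.card := by
    exact_mod_cast (Finset.card_le_card hsub).trans (Finset.card_union_le _ _)
  have k4 := hVc.trans (mul_le_mul_of_nonneg_left k1 hC1.le)
  have k5 := hEc.trans (mul_le_mul_of_nonneg_left (add_le_add_right k2 _) hC2.le)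
  have k6 := mul_nonneg hC1.le k3
  calc (hfin.toFinset.card : ℝ) ≤ C2 * (W ^ (-(1 / 10) : ℝ) * X ^ ((2 : ℝ) / 3) +
        X ^ (2 / 3 - ν)) + C1 * X ^ (2 / 3 - ν) := by linarith
    _ ≤ _ := by
        have e : (C1 + C2) * (W ^ (-(1 / 10) : ℝ) * X ^ ((2 : ℝ) / 3) + X ^ (2 / 3 - ν)) =
          C2 * (W ^ (-(1 / 10) : ℝ) * X ^ ((2 : ℝ) / 3) + X ^ (2 / 3 - ν)) +
          C1 * X ^ (2 / 3 - ν) + C1 * (W ^ (-(1 / 10) : ℝ) * X ^ ((2 : ℝ) / 3)) := by ring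
        rw [e]
        linarith

/-- **Summation over the repeated part.** -/
theorem law {Q : ℕ × ℕ → Prop} {l : ℕ → ℝ} (hl : ∀ w, 0 ≤ l w)
    (h : ∀ w, Tendsto (fun X : ℝ =>
      (({p | p ∈ triples X ∧ Q p ∧ psi3 ∅ p = w} : Set (ℕ × ℕ)).ncard : ℝ) / X ^ ((2 : ℝ) / 3))
      atTop (𝓝 (l w))) :
    Summable l ∧ Tendsto (fun X : ℝ =>
      (({p | p ∈ triples X ∧ Q p} : Set (ℕ × ℕ)).ncard : ℝ) / X ^ ((2 : ℝ) / 3))
      atTop (𝓝 (∑' w, l w)) := by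
  classical
  refine sum_limit hl h fun ε hε => ?_
  obtain ⟨ν, C, hν, hC, htail⟩ := tail_all
  -- choice of W
  have h1 : Tendsto (fun W : ℕ => C * (W : ℝ) ^ (-(1 / 10) : ℝ)) atTop (𝓝 (C * 0)) :=
    ((tendsto_rpow_neg_atTop (by norm_num : (0 : ℝ) < 1 / 10)).comp
      tendsto_natCast_atTop_atTop).const_mul C
  rw [mul_zero] at h1
  have h2 := h1.eventually (eventually_le_nhds (by positivity : (0 : ℝ) < ε / 2))
  obtain ⟨W1, hW1⟩ := Filter.eventually_atTop.1 (h2.and (eventually_ge_atTop 1))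
  refine ⟨W1, fun W hW => ?_⟩
  obtain ⟨hWe, hWone⟩ := hW1 W hW
  have h3 : Tendsto (fun X : ℝ => C * X ^ (-ν : ℝ)) atTop (𝓝 (C * 0)) :=
    (tendsto_rpow_neg_atTop hν).const_mul C
  rw [mul_zero] at h3
  have h4 := h3.eventually (eventually_le_nhds (by positivity : (0 : ℝ) < ε / 2))
  filter_upwards [h4, eventually_ge_atTop 1] with X hX4 hX
  have hX0 : 0 < X := by linarith
  have hXp : 0 < X ^ ((2 : ℝ) / 3) := by positivity
  have hTf := Pool.Agent.Y911.AA.triples_finite' X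
  have f1 : ({p | p ∈ triples X ∧ Q p} : Set (ℕ × ℕ)).Finite := hTf.subset fun p hp => hp.1
  have f2 : ∀ w : ℕ, ({p | p ∈ triples X ∧ Q p ∧ psi3 ∅ p = w} : Set (ℕ × ℕ)).Finite :=
    fun w => hTf.subset fun p hp => hp.1
  have f3 : ({p | p ∈ triples X ∧ (W : ℝ) ≤ (psi3 ∅ p : ℝ)} : Set (ℕ × ℕ)).Finite :=
    hTf.subset fun p hp => hp.1
  obtain ⟨G, hG⟩ : ∃ G : Finset (ℕ × ℕ), G = (range W).biUnion fun w => (f2 w).toFinset :=
    ⟨_, rfl⟩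
  have hGc : (G.card : ℝ) = ∑ w ∈ range W,
      (({p | p ∈ triples X ∧ Q p ∧ psi3 ∅ p = w} : Set (ℕ × ℕ)).ncard : ℝ) := by
    rw [hG, card_biUnion]
    · push_cast
      refine sum_congr rfl fun w _ => ?_
      exact_mod_cast (Set.ncard_eq_toFinset_card _ (f2 w)).symm
    · intro w _ w' _ hne
      rw [Function.onFun, disjoint_left]
      intro p hp hp'
      rw [Set.Finite.mem_toFinset] at hp hp'
      exact hne (hp.2.2.symm.trans hp'.2.2)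
  have hsub1 : G ⊆ f1.toFinset := by
    intro p hp
    rw [hG, mem_biUnion] at hp
    obtain ⟨w, -, hp⟩ := hp
    rw [Set.Finite.mem_toFinset] at hp ⊢
    exact ⟨hp.1, hp.2.1⟩
  have hsub2 : f1.toFinset \ G ⊆ f3.toFinset := by
    intro p hp
    obtain ⟨hp1, hp2⟩ := Finset.mem_sdiff.1 hp
    rw [Set.Finite.mem_toFinset] at hp1 ⊢
    refine ⟨hp1.1, ?_⟩
    by_contra hcon
    rw [not_le] at hcon
    apply hp2
    rw [hG, mem_biUnion]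
    refine ⟨psi3 ∅ p, mem_range.2 (by exact_mod_cast hcon), ?_⟩
    rw [Set.Finite.mem_toFinset]
    exact ⟨hp1.1, hp1.2, rfl⟩
  have hd : ((f1.toFinset \ G).card : ℝ) ≤ C * ((W : ℝ) ^ (-(1 / 10) : ℝ) * X ^ ((2 : ℝ) / 3) +
      X ^ (2 / 3 - ν)) := by
    refine le_trans ?_ (htail X W hX (by exact_mod_cast hWone))
    rw [Set.ncard_eq_toFinset_card _ f3]
    exact_mod_cast Finset.card_le_card hsub2
  have hc : (f1.toFinset.card : ℝ) = (f1.toFinset \ G).card + G.card := by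
    have := Finset.card_sdiff_add_card_eq_card hsub1
    exact_mod_cast this.symm
  have e1 : (({p | p ∈ triples X ∧ Q p} : Set (ℕ × ℕ)).ncard : ℝ) / X ^ ((2 : ℝ) / 3) -
      ∑ w ∈ range W, (({p | p ∈ triples X ∧ Q p ∧ psi3 ∅ p = w} : Set (ℕ × ℕ)).ncard : ℝ) /
        X ^ ((2 : ℝ) / 3) = ((f1.toFinset \ G).card : ℝ) / X ^ ((2 : ℝ) / 3) := by
    rw [← sum_div, ← hGc, ← sub_div, Set.ncard_eq_toFinset_card _ f1, hc]
    ring
  rw [e1, abs_of_nonneg (by positivity), div_le_iff₀ hXp]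
  have e3 : X ^ (2 / 3 - ν : ℝ) = X ^ (-ν : ℝ) * X ^ ((2 : ℝ) / 3) := by
    rw [← Real.rpow_add hX0]
    ring_nf
  rw [e3] at hd
  calc ((f1.toFinset \ G).card : ℝ) ≤ C * ((W : ℝ) ^ (-(1 / 10) : ℝ) * X ^ ((2 : ℝ) / 3) +
        X ^ (-ν : ℝ) * X ^ ((2 : ℝ) / 3)) := hd
    _ = (C * (W : ℝ) ^ (-(1 / 10) : ℝ) + C * X ^ (-ν : ℝ)) * X ^ ((2 : ℝ) / 3) := by ring
    _ ≤ (ε / 2 + ε / 2) * X ^ ((2 : ℝ) / 3) :=
        mul_le_mul_of_nonneg_right (add_le_add hWe hX4) hXp.le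
    _ = ε * X ^ ((2 : ℝ) / 3) := by ring

end Pool.Agent.Y911.JL
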