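import Pool.Agent.Y911.JL.Euler
import Pool.Agent.Y911.JL.Beta

/-! Almost every triple satisfies `c ≤ ψ (rad) rad ^ (1/3)` for every `ψ` tending to infinity. -/

set_option autoImplicit false

namespace Pool.Agent.Y911.JL

open Filter Topology
open Pool.Agent.Results.MP_1ea25c_nt.AlmostAllTriples

theorem kap_pos : 0 < c0 * (∑' w, rho w) * Ar 1 := by
  obtain ⟨h1, h2, -, h4⟩ := consts
  positivity

theorem psi_zero {ψ : ℕ → ℝ} (hψ : Tendsto ψ atTop atTop) :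
    Tendsto (fun X : ℝ => (({p | p ∈ triples X ∧
      ψ (rad3 p) ^ 3 * rad3 p < ((p.1 + p.2 : ℕ) : ℝ) ^ 3} : Set (ℕ × ℕ)).ncard : ℝ) /
        X ^ ((2 : ℝ) / 3)) atTop (𝓝 0) := by
  rw [Metric.tendsto_nhds]
  intro ε hε
  -- choice of the level
  obtain ⟨L, hL⟩ := ((Metric.tendsto_nhds.1 GG_tendsto) (ε / 4) (by positivity)).exists
  obtain ⟨R0, hR0⟩ := Filter.eventually_atTop.1 (hψ.eventually (eventually_ge_atTop (max L 0)))
  have h1 := total.sub (dist L)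
  have h2 := (Metric.tendsto_nhds.1 h1) (ε / 4) (by positivity)
  have h3 : Tendsto (fun X : ℝ => ((triples R0).ncard : ℝ) / X ^ ((2 : ℝ) / 3)) atTop (𝓝 0) :=
    tendsto_const_nhds.div_atTop (tendsto_rpow_atTop (by norm_num))
  have h4 := (Metric.tendsto_nhds.1 h3) (ε / 4) (by positivity)
  filter_upwards [h2, h4, eventually_gt_atTop 0] with X h5 h6 hX
  have hXp : 0 < X ^ ((2 : ℝ) / 3) := by positivity
  have hTf := Pool.Agent.Y911.AA.triples_finite' X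
  obtain ⟨D, hD⟩ : ∃ D : Set (ℕ × ℕ), D = {p | p ∈ triples X ∧
      ((p.1 + p.2 : ℕ) : ℝ) ^ 3 ≤ L ^ 3 * rad3 p} := ⟨_, rfl⟩
  have hDT : D ⊆ triples X := by
    rw [hD]
    exact fun p hp => hp.1
  have hcov : ({p | p ∈ triples X ∧
      ψ (rad3 p) ^ 3 * rad3 p < ((p.1 + p.2 : ℕ) : ℝ) ^ 3} : Set (ℕ × ℕ)) ⊆
      triples R0 ∪ (triples X \ D) := by
    rintro p ⟨hp1, hp2⟩
    rcases le_or_gt (rad3 p) R0 with h | h
    · exact Or.inl ⟨hp1.1, hp1.2.1, hp1.2.2.1, by exact_mod_cast h⟩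
    · refine Or.inr ⟨hp1, fun hcon => ?_⟩
      rw [hD] at hcon
      have h7 := hcon.2
      have h8 := hR0 (rad3 p) h.le
      have h9 : L ^ 3 ≤ ψ (rad3 p) ^ 3 :=
        (Odd.pow_le_pow (by decide)).2 ((le_max_left _ _).trans h8)
      have h10 : L ^ 3 * (rad3 p : ℝ) ≤ ψ (rad3 p) ^ 3 * rad3 p :=
        mul_le_mul_of_nonneg_right h9 (Nat.cast_nonneg _)
      linarith
  have hfin : (triples R0 ∪ (triples X \ D)).Finite :=
    (Pool.Agent.Y911.AA.triples_finite' R0).union (hTf.subset Set.sdiff_subset)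
  have h7 := (Set.ncard_le_ncard hcov hfin).trans (Set.ncard_union_le _ _)
  have h8 := Set.ncard_sdiff_add_ncard_of_subset hDT hTf
  have h9 : ((triples X \ D).ncard : ℝ) = (triples X).ncard - D.ncard := by
    have : ((triples X \ D).ncard : ℝ) + D.ncard = (triples X).ncard := by exact_mod_cast h8
    linarith
  have h10 : (({p | p ∈ triples X ∧
      ψ (rad3 p) ^ 3 * rad3 p < ((p.1 + p.2 : ℕ) : ℝ) ^ 3} : Set (ℕ × ℕ)).ncard : ℝ) ≤
      (triples R0).ncard + ((triples X).ncard - D.ncard) := by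
    rw [← h9]
    exact_mod_cast h7
  rw [Real.dist_eq] at h5 h6 hL ⊢
  rw [← hD] at h5
  rw [sub_zero] at h6 ⊢
  rw [abs_of_nonneg (by positivity)] at h6 ⊢
  have h11 : ((triples X).ncard : ℝ) / X ^ ((2 : ℝ) / 3) - (D.ncard : ℝ) / X ^ ((2 : ℝ) / 3) <
      ε / 2 := by
    rw [abs_lt] at h5 hL
    linarith [h5.2, hL.1]
  calc (({p | p ∈ triples X ∧
      ψ (rad3 p) ^ 3 * rad3 p < ((p.1 + p.2 : ℕ) : ℝ) ^ 3} : Set (ℕ × ℕ)).ncard : ℝ) /
        X ^ ((2 : ℝ) / 3) ≤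
        ((triples R0).ncard + ((triples X).ncard - D.ncard)) / X ^ ((2 : ℝ) / 3) :=
        (div_le_div_iff_of_pos_right hXp).2 h10
    _ = ((triples R0).ncard : ℝ) / X ^ ((2 : ℝ) / 3) +
        (((triples X).ncard : ℝ) / X ^ ((2 : ℝ) / 3) - (D.ncard : ℝ) / X ^ ((2 : ℝ) / 3)) := by
        ring
    _ < ε := by linarith

end Pool.Agent.Y911.JL
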