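import Pool.Agent.TH498.AR.Riem

/-! Sums over residue classes of the lengths of the intervals `μ s ≤ t`, `s t (s + t) ≤ 1`. -/

set_option autoImplicit false

namespace Pool.Agent.Y911.JL

open Finset Filter Topology Pool.Agent.TH498.AR

/-- the length of the interval of `t ≥ μ s` -/
noncomputable def Ph (μ s : ℝ) : ℝ := max 0 (gg s - μ * s)

lemma Ph_nonneg (μ s : ℝ) : 0 ≤ Ph μ s := le_max_left _ _

lemma Ph_anti {μ : ℝ} (hμ : 1 ≤ μ) {s s' : ℝ} (hs : 0 < s) (h : s ≤ s') : Ph μ s' ≤ Ph μ s := by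
  unfold Ph
  refine max_le_max le_rfl ?_
  have h1 := gg_anti hs h
  have h2 : μ * s ≤ μ * s' := mul_le_mul_of_nonneg_left h (by linarith)
  linarith

lemma Ph_zero {μ : ℝ} (hμ : 1 ≤ μ) {s : ℝ} (hs : 1 ≤ s) : Ph μ s = 0 := by
  unfold Ph
  have h1 := gg_lt hs
  have h2 : 1 * s ≤ μ * s := mul_le_mul_of_nonneg_right hμ (by linarith)
  exact max_eq_left (by linarith)

/-- the truncation -/
noncomputable def PF (μ η s : ℝ) : ℝ := Ph μ (max s η)

lemma PF_anti {μ : ℝ} (hμ : 1 ≤ μ) {η : ℝ} (hη : 0 < η) : Antitone (PF μ η) := by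
  intro s s' h
  unfold PF
  exact Ph_anti hμ (lt_of_lt_of_le hη (le_max_right _ _)) (max_le_max h le_rfl)

lemma PF_nonneg (μ η s : ℝ) : 0 ≤ PF μ η s := Ph_nonneg _ _

lemma PF_le {μ : ℝ} (hμ : 1 ≤ μ) {η : ℝ} (hη : 0 < η) (s : ℝ) : PF μ η s ≤ Ph μ η := by
  unfold PF
  exact Ph_anti hμ hη (le_max_right _ _)

lemma PF_zero {μ : ℝ} (hμ : 1 ≤ μ) {η s : ℝ} (hs : 1 ≤ s) : PF μ η s = 0 := by
  unfold PF
  exact Ph_zero hμ (hs.trans (le_max_left _ _))

lemma PF_eq {μ η s : ℝ} (hs : η ≤ s) : PF μ η s = Ph μ s := by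
  unfold PF
  rw [max_eq_left hs]

lemma PF_small {μ η s : ℝ} (hs : s ≤ η) : PF μ η s = Ph μ η := by
  unfold PF
  rw [max_eq_right hs]

/-- the Riemann sum over an arithmetic progression -/
theorem riem {μ : ℝ} (hμ : 1 ≤ μ) {η : ℝ} (hη : 0 < η) {Q r : ℕ} (hQ : 0 < Q) (hrQ : r ≤ Q) {x : ℝ} (hx : 0 < x)
    {n : ℕ} (hn : x ≤ n) :
    |∑ k ∈ range n, PF μ η (((r : ℝ) + Q * k) / x) - x / Q * ∫ s in (0 : ℝ)..1, PF μ η s| ≤
      2 * Ph μ η := by
  have hQ0 : (0 : ℝ) < Q := by exact_mod_cast hQ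
  have hQ1 : (1 : ℝ) ≤ Q := by exact_mod_cast hQ
  have hB := Ph_nonneg μ η
  set f : ℝ → ℝ := fun t => PF μ η (((r : ℝ) + Q * t) / x) with hf
  have hfanti : Antitone f := by
    intro t t' h
    refine PF_anti hμ hη ?_
    refine div_le_div_of_nonneg_right ?_ hx.le
    have := mul_le_mul_of_nonneg_left h hQ0.le
    linarith
  have h1 := AntitoneOn.integral_le_sum (x₀ := 0) (a := n) (f := f) (hfanti.antitoneOn _)
  have h2 := AntitoneOn.sum_le_integral (x₀ := 0) (a := n) (f := f) (hfanti.antitoneOn _)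
  simp only [zero_add] at h1 h2
  have h3 : ∑ i ∈ range n, f i ≤ f 0 + ∑ i ∈ range n, f ((i + 1 : ℕ) : ℝ) := by
    have e := Finset.sum_range_succ' (fun i : ℕ => f (i : ℝ)) n
    have e' := Finset.sum_range_succ (fun i : ℕ => f (i : ℝ)) n
    rw [e'] at e
    have hfn : 0 ≤ f (n : ℝ) := PF_nonneg _ _ _
    simp only [Nat.cast_zero] at e
    linarith
  have hf0 : f 0 ≤ Ph μ η := PF_le hμ hη _
  -- the integral
  have hint : ∫ t in (0 : ℝ)..n, f t =
      x / Q * ∫ s in ((r : ℝ) / x)..(((r : ℝ) + Q * n) / x), PF μ η s := by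
    have e := intervalIntegral.integral_comp_mul_add (a := (0 : ℝ)) (b := (n : ℝ)) (PF μ η)
      (c := (Q : ℝ) / x) (by positivity) ((r : ℝ) / x)
    have e1 : (fun t : ℝ => PF μ η ((Q : ℝ) / x * t + (r : ℝ) / x)) = f := by
      funext t
      rw [hf]
      simp only
      congr 1
      field_simp
      ring
    rw [← e1]
    rw [e, smul_eq_mul]
    congr 1
    · rw [inv_div]
    · congr 1
      · simp
      · field_simp
        ring
  have hii : ∀ a b : ℝ, IntervalIntegrable (PF μ η) MeasureTheory.volume a b :=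
    fun a b => (PF_anti hμ hη).intervalIntegrable
  obtain ⟨α, hα⟩ : ∃ α : ℝ, α = (r : ℝ) / x := ⟨_, rfl⟩
  obtain ⟨β, hβ⟩ : ∃ β : ℝ, β = ((r : ℝ) + Q * n) / x := ⟨_, rfl⟩
  rw [← hα, ← hβ] at hint
  have hα0 : 0 ≤ α := by rw [hα]; positivity
  have hβ1 : 1 ≤ β := by
    rw [hβ, le_div_iff₀ hx, one_mul]
    have : (n : ℝ) ≤ Q * n := by
      have : (0 : ℝ) ≤ n := Nat.cast_nonneg _
      nlinarith
    have : (0 : ℝ) ≤ r := Nat.cast_nonneg _
    linarith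
  have hsplit : ∫ s in α..β, PF μ η s = (∫ s in (0 : ℝ)..1, PF μ η s) - (∫ s in (0 : ℝ)..α, PF μ η s) +
      ∫ s in (1 : ℝ)..β, PF μ η s := by
    have e1 := intervalIntegral.integral_add_adjacent_intervals (hii 0 α) (hii α β)
    have e2 := intervalIntegral.integral_add_adjacent_intervals (hii 0 1) (hii 1 β)
    linarith
  have hz : ∫ s in (1 : ℝ)..β, PF μ η s = 0 := by
    rw [intervalIntegral.integral_congr (g := fun _ => (0 : ℝ))]
    · simp
    · intro s hs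
      rw [Set.uIcc_of_le hβ1] at hs
      exact PF_zero hμ hs.1
  have hα2 : 0 ≤ ∫ s in (0 : ℝ)..α, PF μ η s :=
    intervalIntegral.integral_nonneg hα0 fun s _ => PF_nonneg _ _ _
  have hα3 : ∫ s in (0 : ℝ)..α, PF μ η s ≤ Ph μ η * α := by
    have : ∫ s in (0 : ℝ)..α, PF μ η s ≤ ∫ _ in (0 : ℝ)..α, Ph μ η :=
      intervalIntegral.integral_mono_on hα0 (hii 0 α) (by simp) fun s _ => PF_le hμ hη s
    simpa [mul_comm] using this
  have hα4 : x / Q * (Ph μ η * α) ≤ Ph μ η := by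
    rw [hα]
    have : x / Q * (Ph μ η * ((r : ℝ) / x)) = Ph μ η * ((r : ℝ) / Q) := by
      field_simp
    rw [this]
    have h5 : (r : ℝ) / Q ≤ 1 := by
      rw [div_le_one hQ0]
      exact_mod_cast hrQ
    nlinarith
  have hxQ : 0 < x / Q := by positivity
  obtain ⟨I, hI⟩ : ∃ I : ℝ, I = ∫ s in (0 : ℝ)..1, PF μ η s := ⟨_, rfl⟩
  obtain ⟨I2, hI2⟩ : ∃ I2 : ℝ, I2 = ∫ s in (0 : ℝ)..α, PF μ η s := ⟨_, rfl⟩
  rw [← hI2] at hα2 hα3 hsplit
  rw [← hI] at hsplit ⊢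
  rw [hz, add_zero] at hsplit
  rw [hint, hsplit] at h1 h2
  have h6 : x / Q * I2 ≤ Ph μ η := (mul_le_mul_of_nonneg_left hα3 hxQ.le).trans hα4
  have h7 : 0 ≤ x / Q * I2 := by positivity
  have h8 : x / Q * (I - I2) = x / Q * I - x / Q * I2 := by ring
  rw [h8] at h1 h2
  rw [abs_le]
  constructor
  · linarith
  · linarith

end Pool.Agent.Y911.JL
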