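import Pool.Agent.Y911.JL.Lim

/-! A limit of sums of series. -/

set_option autoImplicit false

namespace Pool.Agent.Y911.JL

open Finset Filter Topology

/-- interchange of limit and sum under a uniform tail bound -/
theorem sum_limit {F : ℝ → ℝ} {f : ℕ → ℝ → ℝ} {l : ℕ → ℝ} (hl : ∀ w, 0 ≤ l w)
    (hf : ∀ w, Tendsto (f w) atTop (𝓝 (l w)))
    (hF : ∀ ε : ℝ, 0 < ε → ∃ W0 : ℕ, ∀ W : ℕ, W0 ≤ W →
      ∀ᶠ X in atTop, |F X - ∑ w ∈ range W, f w X| ≤ ε) :
    Summable l ∧ Tendsto F atTop (𝓝 (∑' w, l w)) := by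
  have hs : ∀ W : ℕ, Tendsto (fun X => ∑ w ∈ range W, f w X) atTop
      (𝓝 (∑ w ∈ range W, l w)) := fun W => tendsto_finsetSum _ fun w _ => hf w
  have hsum : Summable l := by
    obtain ⟨W0, hW0⟩ := hF 1 one_pos
    refine summable_of_sum_range_le (c := (∑ w ∈ range W0, l w) + 4) hl fun n => ?_
    have h1 : ∑ w ∈ range n, l w ≤ ∑ w ∈ range (max n W0), l w :=
      sum_le_sum_of_subset_of_nonneg (range_mono (le_max_left _ _)) fun w _ _ => hl w
    refine h1.trans ?_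
    have e1 := hW0 (max n W0) (le_max_right _ _)
    have e2 := hW0 W0 le_rfl
    have e3 := (Metric.tendsto_nhds.1 (hs (max n W0))) 1 one_pos
    have e4 := (Metric.tendsto_nhds.1 (hs W0)) 1 one_pos
    obtain ⟨X, h2, h3, h4, h5⟩ := (e1.and (e2.and (e3.and e4))).exists
    rw [Real.dist_eq] at h4 h5
    rw [abs_le] at h2 h3
    rw [abs_lt] at h4 h5
    linarith [h2.1, h2.2, h3.1, h3.2, h4.1, h4.2, h5.1, h5.2]
  refine ⟨hsum, ?_⟩
  rw [Metric.tendsto_nhds]
  intro ε hε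
  obtain ⟨W0, hW0⟩ := hF (ε / 4) (by positivity)
  have h1 := (Metric.tendsto_nhds.1 hsum.hasSum.tendsto_sum_nat) (ε / 4) (by positivity)
  obtain ⟨W, hW, hWW⟩ := (h1.and (eventually_ge_atTop W0)).exists
  have h2 := (Metric.tendsto_nhds.1 (hs W)) (ε / 4) (by positivity)
  filter_upwards [h2, hW0 W hWW] with X h3 h4
  rw [Real.dist_eq] at hW h3 ⊢
  have e : F X - ∑' w, l w = (F X - ∑ w ∈ range W, f w X) +
      (∑ w ∈ range W, f w X - ∑ w ∈ range W, l w) + (∑ w ∈ range W, l w - ∑' w, l w) := by ring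
  rw [e]
  refine lt_of_le_of_lt ((abs_add_le _ _).trans (add_le_add_left (abs_add_le _ _) _)) ?_
  linarith

end Pool.Agent.Y911.JL
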